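import Pool.Agent.H252.EL.Iface

set_option autoImplicit false

noncomputable section

namespace Pool.Agent.H100.ELBLD

open Pool.Agent.H252.EL
open Filter Topology
open scoped ENNReal NNReal Matrix.Norms.L2Operator ComplexOrder
open Pool.Agent.TH249 (Prj K0 Eqv IsPrj)
open Pool.Agent.H188R3 (IsLim)

/-- the square root of a positive element of a C*-algebra -/
lemma sq_root {B : Type} [CStarAlgebra B] (h : B) (hs : IsSelfAdjoint h)
    (hsp : ∀ x ∈ spectrum ℝ h, 0 ≤ x) : ∃ y : B, h = star y * y := by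
  refine ⟨cfc Real.sqrt h, ?_⟩
  have h1 : IsSelfAdjoint (cfc Real.sqrt h) := cfc_predicate _ _
  rw [h1.star_eq, ← cfc_mul _ _ h]
  conv_lhs => rw [← cfc_id ℝ h]
  exact cfc_congr fun x hx => (Real.mul_self_sqrt (hsp x hx)).symm

section alg

variable {Z : Type} [TopologicalSpace Z] [CompactSpace Z] {M n : ℕ}

/-- square roots of positive matrix valued functions -/
lemma sq_fun {J : Type} [Fintype J] [DecidableEq J] (h : C(Z, Matrix J J ℂ))
    (hp : ∀ z, (h z).PosSemidef) : ∃ y : C(Z, Matrix J J ℂ), h = star y * y := by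
  refine sq_root h ?_ ?_
  · ext1 z
    exact (hp z).isHermitian
  · intro x hx
    by_contra hx0
    push Not at hx0
    refine hx ?_
    show IsUnit (algebraMap ℝ C(Z, Matrix J J ℂ) x - h)
    rw [ContinuousMap.isUnit_iff_forall_isUnit]
    intro z
    have h1 : ((-x : ℝ) • (1 : Matrix J J ℂ) + h z).PosDef := by
      refine Matrix.PosDef.add_posSemidef ?_ (hp z)
      exact Matrix.PosDef.one.smul (by linarith)
    have h2 : (algebraMap ℝ C(Z, Matrix J J ℂ) x - h) z = -((-x : ℝ) • (1 : Matrix J J ℂ) + h z) := by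
      have h3 : (algebraMap ℝ C(Z, Matrix J J ℂ) x) z = x • (1 : Matrix J J ℂ) := by
        rw [Algebra.algebraMap_eq_smul_one]
        rfl
      show (algebraMap ℝ C(Z, Matrix J J ℂ) x) z - h z = _
      rw [h3, neg_smul]
      abel
    rw [h2]
    exact h1.isUnit.neg

/-- the blocks of a matrix valued function -/
def bl (h : C(Z, Matrix (Fin M × Fin n) (Fin M × Fin n) ℂ)) : Matrix (Fin M) (Fin M) (BB Z n) :=
  Matrix.of fun s t => ⟨fun z => Matrix.of fun a a' => h z (s, a) (t, a'), by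
    refine continuous_matrix fun a a' => ?_
    exact h.continuous.matrix_elem (s, a) (t, a')⟩

lemma bl_apply (h : C(Z, Matrix (Fin M × Fin n) (Fin M × Fin n) ℂ)) (s t : Fin M) (z : Z)
    (a a' : Fin n) : bl h s t z a a' = h z (s, a) (t, a') := rfl

lemma bl_ext {A B : Matrix (Fin M) (Fin M) (BB Z n)} (h : ∀ s t z a a', A s t z a a' = B s t z a a') :
    A = B := by
  ext s t z a a'
  exact h s t z a a'

lemma one_bb (s t : Fin M) (z : Z) (a a' : Fin n) :
    (1 : Matrix (Fin M) (Fin M) (BB Z n)) s t z a a' =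
      (1 : Matrix (Fin M × Fin n) (Fin M × Fin n) ℂ) (s, a) (t, a') := by
  rw [Matrix.one_apply, Matrix.one_apply]
  by_cases h : s = t
  · subst h
    rw [if_pos rfl]
    show (1 : Matrix (Fin n) (Fin n) ℂ) a a' = _
    rw [Matrix.one_apply]
    by_cases h' : a = a'
    · rw [if_pos h', if_pos (by rw [h'])]
    · rw [if_neg h', if_neg (fun h2 => h' (Prod.ext_iff.1 h2).2)]
  · rw [if_neg h, if_neg (fun h2 => h (Prod.ext_iff.1 h2).1)]
    rfl

lemma bl_one_sub (h : C(Z, Matrix (Fin M × Fin n) (Fin M × Fin n) ℂ)) : bl (1 - h) = 1 - bl h := by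
  refine bl_ext fun s t z a a' => ?_
  show (1 : Matrix (Fin M × Fin n) (Fin M × Fin n) ℂ) (s, a) (t, a') - h z (s, a) (t, a') =
    (1 : Matrix (Fin M) (Fin M) (BB Z n)) s t z a a' - bl h s t z a a'
  rw [one_bb, bl_apply]

lemma bl_star_mul (y : C(Z, Matrix (Fin M × Fin n) (Fin M × Fin n) ℂ)) :
    bl (star y * y) = star (bl y) * bl y := by
  refine bl_ext fun s t z a a' => ?_
  have h1 : (star (bl y) * bl y) s t = ∑ u, star (bl y u s) * bl y u t := rfl
  have h2 : (∑ u, star (bl y u s) * bl y u t) z = ∑ u, star (bl y u s z) * bl y u t z := by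
    rw [ContinuousMap.sum_apply]
    rfl
  have h3 : (∑ u, star (bl y u s z) * bl y u t z) a a' =
      ∑ u, ∑ c, star (y z (u, c) (s, a)) * y z (u, c) (t, a') := by
    rw [Matrix.sum_apply]
    rfl
  rw [h1, h2, h3]
  show (star (y z) * y z) (s, a) (t, a') = _
  rw [Matrix.mul_apply, Fintype.sum_prod_type]
  rfl

/-- the sum of the traces of the diagonal blocks is the trace -/
lemma sum_ctr (h : C(Z, Matrix (Fin M × Fin n) (Fin M × Fin n) ℂ)) (z : Z) :
    (∑ s, ctr (bl h s s)) z = (n : ℂ)⁻¹ * (h z).trace := by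
  rw [ContinuousMap.sum_apply]
  have h1 : ∀ s, (ctr (bl h s s)) z = (n : ℂ)⁻¹ * ∑ a, h z (s, a) (s, a) := by
    intro s
    show ntr (bl h s s z) = _
    unfold ntr
    rw [Fintype.card_fin]
    rfl
  rw [Finset.sum_congr rfl fun s _ => h1 s, ← Finset.mul_sum]
  unfold Matrix.trace
  rw [Fintype.sum_prod_type]
  rfl

lemma sc_star_mul (f : C(Z, ℂ)) : sc n (star f * f) = star (sc n f) * sc n f := by
  ext1 z
  show (star (f z) * f z) • (1 : Matrix (Fin n) (Fin n) ℂ) =
    star (f z • (1 : Matrix (Fin n) (Fin n) ℂ)) * (f z • (1 : Matrix (Fin n) (Fin n) ℂ))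
  rw [star_smul, star_one, smul_mul_smul_comm, one_mul]

lemma sc_add (f g : C(Z, ℂ)) : sc n (f + g) = sc n f + sc n g := by
  ext1 z
  exact add_smul (f z) (g z) (1 : Matrix (Fin n) (Fin n) ℂ)

lemma sc_sum {ι : Type} (I : Finset ι) (f : ι → C(Z, ℂ)) :
    sc n (∑ s ∈ I, f s) = ∑ s ∈ I, sc n (f s) := by
  classical
  induction I using Finset.induction_on with
  | empty =>
    rw [Finset.sum_empty, Finset.sum_empty]
    ext1 z
    exact zero_smul ℂ (1 : Matrix (Fin n) (Fin n) ℂ)
  | insert a I ha ih =>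
    rw [Finset.sum_insert ha, Finset.sum_insert ha, sc_add, ih]

lemma sc_const (c : ℂ) : sc (Z := Z) n (ContinuousMap.const Z c) = c • (1 : BB Z n) := by
  ext1 z
  rfl

end alg

theorem s_BLD : S_BLD := by
  intro hM D hD i M b β κ hβ hp hκ
  let H : ∀ b', Cb (D.d i b') → Matrix (Fin M × Fin (D.n i)) (Fin M × Fin (D.n i)) ℂ := Function.update (fun _ _ => 1) b β
  have hHb : H b = β := Function.update_self _ _ _
  have hHb' : ∀ b', b' ≠ b → H b' = fun _ => 1 := fun b' hb' => Function.update_of_ne hb' _ _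
  have hHc : ∀ b', Continuous (H b') := by
    intro b'
    by_cases h : b' = b
    · subst h
      rw [hHb]
      exact hβ
    · rw [hHb' b' h]
      exact continuous_const
  let h : C(D.Z i, Matrix (Fin M × Fin (D.n i)) (Fin M × Fin (D.n i)) ℂ) := ⟨fun z => H z.1 z.2, continuous_sigma fun b' => hHc b'⟩
  have hh : ∀ b' y, h ⟨b', y⟩ = H b' y := fun _ _ => rfl
  have hpos : ∀ z, (h z).PosSemidef ∧ (1 - h z).PosSemidef ∧ κ ≤ (h z).trace.re := by
    rintro ⟨b', y⟩
    rw [hh]
    by_cases hb : b' = b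
    · subst hb
      rw [hHb]
      exact hp y
    · rw [hHb' b' hb]
      refine ⟨Matrix.PosSemidef.one, ?_, ?_⟩
      · rw [sub_self]
        exact Matrix.PosSemidef.zero
      · rw [Matrix.trace_one]
        have : Fintype.card (Fin M × Fin (D.n i)) = M * D.n i := by
          rw [Fintype.card_prod, Fintype.card_fin, Fintype.card_fin]
        rw [this]
        simpa using hκ
  obtain ⟨y₁, hy₁⟩ := sq_fun h fun z => (hpos z).1
  obtain ⟨y₂, hy₂⟩ := sq_fun (1 - h) fun z => (hpos z).2.1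
  refine ⟨bl h, ⟨bl y₁, ?_⟩, ⟨bl y₂, ?_⟩, ?_, ?_, ?_⟩
  · rw [← bl_star_mul, ← hy₁]
  · rw [← bl_star_mul, ← hy₂, bl_one_sub]
  · intro s t y a a'
    rw [bl_apply, hh, hHb]
  · intro s t y
    ext a a'
    rw [bl_apply, hh, hHb' (!b) (by simp)]
    show (1 : Matrix (Fin M × Fin (D.n i)) (Fin M × Fin (D.n i)) ℂ) (s, a) (t, a') = _
    rw [Matrix.one_apply]
    by_cases hst : s = t
    · subst hst
      rw [if_pos rfl, Matrix.one_apply]
      by_cases h' : a = a'
      · rw [if_pos h', if_pos (by rw [h'])]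
      · rw [if_neg h', if_neg (fun h2 => h' (Prod.ext_iff.1 h2).2)]
    · rw [if_neg hst, if_neg (fun h2 => hst (Prod.ext_iff.1 h2).1)]
      rfl
  · intro L _ j hL τ hτ
    obtain ⟨hm1, -⟩ := hM D hD L j hL τ hτ
    -- the scalar function
    set g : C(D.Z i, ℂ) := ∑ s, ctr (bl h s s) with hg
    have hgz : ∀ z, g z = ((D.n i : ℕ) : ℂ)⁻¹ * (h z).trace := fun z => sum_ctr h z
    have h1 : trM τ ((bl h).map (j i)) = τ (j i (sc _ g)) := by
      unfold trM
      have h2 : ∀ s, τ (((bl h).map (j i)) s s) = τ (j i (sc _ (ctr (bl h s s)))) := fun s =>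
        hm1 i (bl h s s)
      rw [Finset.sum_congr rfl fun s _ => h2 s, hg, sc_sum, map_sum, map_sum]
    have hgr : ∀ z, g z = (((g z).re : ℝ) : ℂ) ∧ κ / D.n i ≤ (g z).re := by
      intro z
      have h2 : 0 ≤ (h z).trace := (hpos z).1.trace_nonneg
      have h3 : (h z).trace.im = 0 := ((Complex.le_def.1 h2).2).symm
      have h4 : (h z).trace = (((h z).trace.re : ℝ) : ℂ) := by
        apply Complex.ext
        · rfl
        · rw [h3, Complex.ofReal_im]
      have h5 : g z = ((((D.n i : ℝ))⁻¹ * (h z).trace.re : ℝ) : ℂ) := by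
        rw [hgz, h4]
        push_cast
        rfl
      refine ⟨?_, ?_⟩
      · rw [h5, Complex.ofReal_re]
      · rw [h5, Complex.ofReal_re, div_eq_mul_inv, mul_comm]
        exact mul_le_mul_of_nonneg_left (hpos z).2.2 (by positivity)
    -- the square root
    let f : C(D.Z i, ℂ) := ⟨fun z => ((Real.sqrt ((g z).re - κ / D.n i) : ℝ) : ℂ), by
      refine Complex.continuous_ofReal.comp (Real.continuous_sqrt.comp ?_)
      exact (Complex.continuous_re.comp g.continuous).sub continuous_const⟩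
    have h6 : g = ContinuousMap.const _ ((κ / D.n i : ℝ) : ℂ) + star f * f := by
      ext1 z
      obtain ⟨h7, h8⟩ := hgr z
      show g z = ((κ / D.n i : ℝ) : ℂ) + star (((Real.sqrt ((g z).re - κ / D.n i) : ℝ) : ℂ)) *
        ((Real.sqrt ((g z).re - κ / D.n i) : ℝ) : ℂ)
      rw [Complex.star_def, Complex.conj_ofReal, ← Complex.ofReal_mul,
        Real.mul_self_sqrt (by linarith), ← Complex.ofReal_add]
      conv_lhs => rw [h7]
      congr 1
      ring
    rw [h1, h6, sc_add, sc_const, sc_star_mul, map_add, map_add, map_smul, map_smul, map_one,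
      map_mul, map_star, hτ.1, Complex.add_re]
    have h9 := (hτ.2.1 (j i (sc _ f))).1
    have h10 : (((κ / D.n i : ℝ) : ℂ) • (1 : ℂ)).re = κ / D.n i := by
      rw [smul_eq_mul, mul_one, Complex.ofReal_re]
    rw [h10]
    linarith

end Pool.Agent.H100.ELBLD
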