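import Pool.Agent.H316.EM.Stm2

/-! EM UNI: virtual unipotence. -/

set_option autoImplicit false
set_option linter.unusedSectionVars false

namespace Pool.Agent.H100.EMU

open Pool.Agent.H316.EM

/-! ### the Fibonacci automorphism -/

theorem th_fst (b : B) : (Multiplicative.toAdd (th b)).1 = (Multiplicative.toAdd b).2 := rfl

theorem th_snd (b : B) : (Multiplicative.toAdd (th b)).2 =
    (Multiplicative.toAdd b).1 + (Multiplicative.toAdd b).2 := rfl

theorem th_pow (b : B) (m : ℕ) :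
    (Multiplicative.toAdd ((th ^ (m + 1)) b)).1 =
        Nat.fib (m + 1) * (Multiplicative.toAdd b).2 + Nat.fib m * (Multiplicative.toAdd b).1 ∧
      (Multiplicative.toAdd ((th ^ (m + 1)) b)).2 =
        Nat.fib (m + 1) * ((Multiplicative.toAdd b).1 + (Multiplicative.toAdd b).2) +
          Nat.fib m * (Multiplicative.toAdd b).2 := by
  induction m with
  | zero =>
    rw [zero_add, pow_one, th_fst, th_snd]
    simp
  | succ m ih =>
    have h : (th ^ (m + 1 + 1)) b = th ((th ^ (m + 1)) b) := by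
      rw [pow_succ']
      rfl
    rw [h, th_fst, th_snd, ih.1, ih.2, Nat.fib_add_two]
    push_cast
    constructor <;> ring

theorem five {a c : ℤ} (h : c ^ 2 + a * c - a ^ 2 = 0) : a = 0 := by
  by_contra ha
  have h1 : (2 * c + a) ^ 2 = 5 * a ^ 2 := by linear_combination 4 * h
  have h2 : Irrational (Real.sqrt 5) := by
    have := Nat.Prime.irrational_sqrt (by norm_num : Nat.Prime 5)
    simpa using this
  apply h2
  refine ⟨|((2 * c + a : ℤ) : ℚ) / a|, ?_⟩
  rw [eq_comm, Real.sqrt_eq_iff_mul_self_eq (by norm_num) (by positivity)]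
  push_cast
  rw [abs_mul_abs_self]
  have ha' : (a : ℝ) ≠ 0 := by exact_mod_cast ha
  have h3 : ((2 * c + a : ℝ)) ^ 2 = 5 * (a : ℝ) ^ 2 := by exact_mod_cast h1
  field_simp
  linear_combination (-1 : ℝ) * h3

theorem exists_root (M : ℕ) (hM : 0 < M) :
    ∃ N₁ : ℕ, 0 < N₁ ∧ ∀ b : B, ∃ b₁ : B, b ^ N₁ = (th ^ M) b₁ / b₁ := by
  obtain ⟨m, rfl⟩ : ∃ m, M = m + 1 := ⟨M - 1, by omega⟩
  set a : ℤ := ((Nat.fib (m + 1) : ℕ) : ℤ) with ha
  set c : ℤ := ((Nat.fib m : ℕ) : ℤ) - 1 with hc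
  have ha0 : a ≠ 0 := by
    rw [ha]
    exact_mod_cast (Nat.fib_pos.2 (Nat.succ_pos m)).ne'
  have hD : c ^ 2 + a * c - a ^ 2 ≠ 0 := fun h => ha0 (five h)
  have key : ∀ b : B, ∃ b₁ : B, b ^ (c ^ 2 + a * c - a ^ 2) = (th ^ (m + 1)) b₁ / b₁ := by
    intro b
    set x := (Multiplicative.toAdd b).1 with hx
    set y := (Multiplicative.toAdd b).2 with hy
    refine ⟨Multiplicative.ofAdd ((a + c) * x - a * y, (a + c) * y - a * (x + y)), ?_⟩
    apply Multiplicative.toAdd.injective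
    rw [toAdd_zpow, toAdd_div]
    have h1 := th_pow (Multiplicative.ofAdd ((a + c) * x - a * y, (a + c) * y - a * (x + y))) m
    rw [toAdd_ofAdd] at h1 ⊢
    refine Prod.ext ?_ ?_
    · rw [Prod.smul_fst, Prod.fst_sub, h1.1, ← hx, smul_eq_mul, ← ha]
      have hc' : (Nat.fib m : ℤ) = c + 1 := by rw [hc]; ring
      rw [hc']
      ring
    · rw [Prod.smul_snd, Prod.snd_sub, h1.2, ← hy, smul_eq_mul, ← ha]
      have hc' : (Nat.fib m : ℤ) = c + 1 := by rw [hc]; ring
      rw [hc']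
      ring
  refine ⟨(c ^ 2 + a * c - a ^ 2).natAbs, Int.natAbs_pos.2 hD, fun b => ?_⟩
  rcases Int.natAbs_eq (c ^ 2 + a * c - a ^ 2) with h | h
  · obtain ⟨b₁, hb₁⟩ := key b
    refine ⟨b₁, ?_⟩
    rw [← hb₁]
    conv_rhs => rw [h]
    rw [zpow_natCast]
  · obtain ⟨b₁, hb₁⟩ := key b⁻¹
    refine ⟨b₁, ?_⟩
    rw [← hb₁, inv_zpow, ← zpow_neg]
    conv_rhs => rw [h]
    rw [neg_neg, zpow_natCast]

/-! ### the linear algebra part -/

section lin

variable {V : Type} [AddCommGroup V] [Module ℂ V] [FiniteDimensional ℂ V]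

/-- characters of the image algebra -/
def XX (R : B →* Module.End ℂ V) : Type :=
  {χ : B →* ℂ // ∀ f, MonoidAlgebra.lift ℂ (Module.End ℂ V) B R f = 0 →
    MonoidAlgebra.lift ℂ ℂ B χ f = 0}

/-- the kernel of the representation -/
noncomputable def II (R : B →* Module.End ℂ V) : Ideal (MonoidAlgebra ℂ B) :=
  RingHom.ker (MonoidAlgebra.lift ℂ (Module.End ℂ V) B R)

theorem mem_II (R : B →* Module.End ℂ V) (f : MonoidAlgebra ℂ B) :
    f ∈ II R ↔ MonoidAlgebra.lift ℂ (Module.End ℂ V) B R f = 0 := Iff.rfl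

theorem finDim_quot (R : B →* Module.End ℂ V) (P : Ideal (MonoidAlgebra ℂ B)) (hP : II R ≤ P) :
    FiniteDimensional ℂ (MonoidAlgebra ℂ B ⧸ P) := by
  have h1 : FiniteDimensional ℂ (MonoidAlgebra ℂ B ⧸ II R) := by
    let F : (MonoidAlgebra ℂ B ⧸ II R) →ₐ[ℂ] Module.End ℂ V :=
      Ideal.Quotient.liftₐ (II R) (MonoidAlgebra.lift ℂ (Module.End ℂ V) B R) (fun a ha => ha)
    have hF : Function.Injective F.toLinearMap := by
      rw [injective_iff_map_eq_zero]
      intro a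
      obtain ⟨a, rfl⟩ := Ideal.Quotient.mk_surjective a
      intro h
      exact Ideal.Quotient.eq_zero_iff_mem.2 h
    exact FiniteDimensional.of_injective F.toLinearMap hF
  exact Module.Finite.of_surjective (Ideal.Quotient.factorₐ ℂ hP).toLinearMap
    (Ideal.Quotient.factor_surjective hP)

instance finXX (R : B →* Module.End ℂ V) : Finite (XX R) := by
  have := finDim_quot R (II R) le_rfl
  let G : XX R → ((MonoidAlgebra ℂ B ⧸ II R) →ₐ[ℂ] ℂ) := fun χ =>
    Ideal.Quotient.liftₐ (II R) (MonoidAlgebra.lift ℂ ℂ B χ.1) (fun a ha => χ.2 a ha)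
  refine Finite.of_injective G ?_
  intro χ χ' h
  apply Subtype.ext
  refine MonoidHom.ext fun b => ?_
  have h1 := congrArg (fun A => A (Ideal.Quotient.mk (II R) (MonoidAlgebra.single b 1))) h
  have h2 : MonoidAlgebra.lift ℂ ℂ B χ.1 (MonoidAlgebra.single b 1) =
      MonoidAlgebra.lift ℂ ℂ B χ'.1 (MonoidAlgebra.single b 1) := h1
  simpa using h2

/-- the action of an automorphism on characters -/
def shift (R : B →* Module.End ℂ V) (θ : MulAut B) (T T' : Module.End ℂ V)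
    (h : ∀ b, T * R b * T' = R (θ b)) (_ : T' * T = 1) (χ : XX R) : XX R :=
  ⟨χ.1.comp θ.toMonoidHom, by
    intro f hf
    have h1 : ∀ f : MonoidAlgebra ℂ B,
        MonoidAlgebra.lift ℂ ℂ B (χ.1.comp θ.toMonoidHom) f =
          MonoidAlgebra.lift ℂ ℂ B χ.1 (MonoidAlgebra.mapDomainAlgHom ℂ ℂ θ.toMonoidHom f) := by
      intro f
      have : MonoidAlgebra.lift ℂ ℂ B (χ.1.comp θ.toMonoidHom) =
          (MonoidAlgebra.lift ℂ ℂ B χ.1).comp (MonoidAlgebra.mapDomainAlgHom ℂ ℂ θ.toMonoidHom) := by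
        apply (MonoidAlgebra.lift ℂ ℂ B).symm.injective
        refine MonoidHom.ext fun b => ?_
        simp
      rw [this]
      rfl
    have h2 : ∀ f : MonoidAlgebra ℂ B,
        MonoidAlgebra.lift ℂ (Module.End ℂ V) B R
          (MonoidAlgebra.mapDomainAlgHom ℂ ℂ θ.toMonoidHom f) =
        T * MonoidAlgebra.lift ℂ (Module.End ℂ V) B R f * T' := by
      intro f
      induction f using MonoidAlgebra.induction_linear with
      | zero => simp
      | add f g hf hg => rw [map_add, map_add, hf, hg, map_add, mul_add, add_mul]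
      | single b c => simp [← h b]
    rw [h1]
    apply χ.2
    rw [h2, hf, mul_zero, zero_mul]⟩

theorem nil_of_char (R : B →* Module.End ℂ V) (b : B) (h : ∀ χ : XX R, χ.1 b = 1) :
    IsNilpotent (R b - 1) := by
  by_contra hn
  set f : MonoidAlgebra ℂ B := MonoidAlgebra.single b 1 - 1 with hf
  have hFf : MonoidAlgebra.lift ℂ (Module.End ℂ V) B R f = R b - 1 := by
    rw [hf, map_sub, MonoidAlgebra.lift_single, map_one, one_smul]
  have hrad : f ∉ (II R).radical := by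
    rintro ⟨k, hk⟩
    rw [mem_II, map_pow, hFf] at hk
    exact hn ⟨k, hk⟩
  rw [Ideal.radical_eq_sInf, Submodule.mem_sInf] at hrad
  push Not at hrad
  obtain ⟨P, ⟨hIP, hP⟩, hfP⟩ := hrad
  have := finDim_quot R P hIP
  have hdom : IsDomain (MonoidAlgebra ℂ B ⧸ P) := Ideal.Quotient.isDomain P
  have hbij : Function.Bijective (algebraMap ℂ (MonoidAlgebra ℂ B ⧸ P)) :=
    IsAlgClosed.algebraMap_bijective_of_isIntegral
  let e : ℂ ≃ₐ[ℂ] (MonoidAlgebra ℂ B ⧸ P) := AlgEquiv.ofBijective (Algebra.ofId _ _) hbij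
  let σ : MonoidAlgebra ℂ B →ₐ[ℂ] ℂ := e.symm.toAlgHom.comp (Ideal.Quotient.mkₐ ℂ P)
  have hσ : ∀ g ∈ P, σ g = 0 := by
    intro g hg
    change e.symm (Ideal.Quotient.mk P g) = 0
    rw [Ideal.Quotient.eq_zero_iff_mem.2 hg, map_zero]
  have hσf : σ f ≠ 0 := by
    intro h0
    apply hfP
    have h1 : e.symm (Ideal.Quotient.mk P f) = 0 := h0
    rw [EmbeddingLike.map_eq_zero_iff] at h1
    exact Ideal.Quotient.eq_zero_iff_mem.1 h1
  let χ : B →* ℂ := (MonoidAlgebra.lift ℂ ℂ B).symm σ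
  have hχ : MonoidAlgebra.lift ℂ ℂ B χ = σ := (MonoidAlgebra.lift ℂ ℂ B).apply_symm_apply σ
  have hX : ∀ f, MonoidAlgebra.lift ℂ (Module.End ℂ V) B R f = 0 →
      MonoidAlgebra.lift ℂ ℂ B χ f = 0 := by
    intro g hg
    rw [hχ]
    exact hσ g (hIP hg)
  have h2 := h ⟨χ, hX⟩
  apply hσf
  rw [← hχ, hf, map_sub, MonoidAlgebra.lift_single, map_one, one_smul]
  simp only at h2
  rw [h2, sub_self]

theorem nil_part (R : B →* Module.End ℂ V) (θ : MulAut B) (T T' : Module.End ℂ V)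
    (hT : T' * T = 1) (h : ∀ b, T * R b * T' = R (θ b)) :
    ∃ m : ℕ, 0 < m ∧ ∀ b, IsNilpotent (R ((θ ^ m) b / b) - 1) := by
  have hinj : Function.Injective (shift R θ T T' h hT) := by
    intro χ χ' hc
    apply Subtype.ext
    have h1 : χ.1.comp θ.toMonoidHom = χ'.1.comp θ.toMonoidHom := congrArg Subtype.val hc
    refine MonoidHom.ext fun b => ?_
    have h2 := congrArg (fun φ : B →* ℂ => φ (θ⁻¹ b)) h1
    have h3 : θ (θ⁻¹ b) = b := MulAut.apply_inv_self _ θ b
    have h4 : χ.1 (θ (θ⁻¹ b)) = χ'.1 (θ (θ⁻¹ b)) := h2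
    rwa [h3] at h4
  let π : Equiv.Perm (XX R) := Equiv.ofBijective _ (Finite.injective_iff_bijective.1 hinj)
  refine ⟨orderOf π, orderOf_pos π, fun b => nil_of_char R _ fun χ => ?_⟩
  have hpow : ∀ (j : ℕ) (χ : XX R) (b : B), ((π ^ j) χ).1 b = χ.1 ((θ ^ j) b) := by
    intro j
    induction j with
    | zero => intro χ b; rfl
    | succ j ih =>
      intro χ b
      have h5 : ((π ^ (j + 1)) χ) = (π ^ j) (π χ) := by
        rw [pow_succ]
        rfl
      rw [h5, ih]
      have h6 : (π χ).1 ((θ ^ j) b) = χ.1 (θ ((θ ^ j) b)) := rfl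
      rw [h6, pow_succ']
      rfl
  have h7 := hpow (orderOf π) χ b
  rw [pow_orderOf_eq_one] at h7
  have h8 : χ.1 b = χ.1 ((θ ^ orderOf π) b) := h7
  have h9 : χ.1 b * χ.1 b⁻¹ = 1 := by rw [← map_mul, mul_inv_cancel, map_one]
  rw [div_eq_mul_inv, map_mul, ← h8, h9]

end lin

/-! ### from `L` to linear algebra -/

section fin

open TensorProduct

theorem pow_finrank_eq_zero {V : Type} [AddCommGroup V] [Module ℂ V] [FiniteDimensional ℂ V]
    {f : Module.End ℂ V} (h : IsNilpotent f) : f ^ (Module.finrank ℂ V) = 0 := by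
  obtain ⟨m, hm⟩ := h
  have h1 := Module.End.ker_pow_le_ker_pow_finrank f m
  rw [hm] at h1
  ext v
  have h2 : v ∈ LinearMap.ker (0 : Module.End ℂ V) := by simp
  exact h1 h2

/-- elements killed in `ℂ ⊗ M` are torsion -/
theorem torsion_of_tmul {M : Type} [AddCommGroup M] (x : M)
    (h : (1 : ℂ) ⊗ₜ[ℤ] x = 0) : x ∈ Submodule.torsion ℤ M := by
  have hflat : Module.Flat ℤ (M ⧸ Submodule.torsion ℤ M) :=
    Module.Flat.flat_iff_torsion_eq_bot_of_isBezout.2 Submodule.QuotientTorsion.torsion_eq_bot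
  have hinj : Function.Injective (Algebra.linearMap ℤ ℂ) := by
    intro a b hab
    have : ((a : ℤ) : ℂ) = ((b : ℤ) : ℂ) := by simpa using hab
    exact_mod_cast this
  have h1 := Module.Flat.rTensor_preserves_injective_linearMap (M := M ⧸ Submodule.torsion ℤ M)
    (Algebra.linearMap ℤ ℂ) hinj
  have h2 : (1 : ℂ) ⊗ₜ[ℤ] (Submodule.Quotient.mk x : M ⧸ Submodule.torsion ℤ M) = 0 := by
    have h3 := congrArg (LinearMap.lTensor ℂ (Submodule.mkQ (Submodule.torsion ℤ M))) h
    rw [LinearMap.lTensor_tmul, map_zero] at h3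
    exact h3
  have h4 : (1 : ℤ) ⊗ₜ[ℤ] (Submodule.Quotient.mk x : M ⧸ Submodule.torsion ℤ M) = 0 := by
    apply h1
    rw [LinearMap.rTensor_tmul, map_zero]
    simpa using h2
  have h5 := congrArg (TensorProduct.lid ℤ (M ⧸ Submodule.torsion ℤ M)) h4
  rw [TensorProduct.lid_tmul, map_zero, one_smul] at h5
  exact (Submodule.Quotient.mk_eq_zero _).1 h5

variable {L : Type} [CommGroup L]

/-- an automorphism as an additive endomorphism -/
def toE : MulAut L →* Module.End ℤ (Additive L) where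
  toFun φ := (MonoidHom.toAdditive φ.toMonoidHom).toIntLinearMap
  map_one' := rfl
  map_mul' _ _ := rfl

theorem toE_apply (φ : MulAut L) (l : L) : toE φ (Additive.ofMul l) = Additive.ofMul (φ l) := rfl

theorem iter_eq (φ : MulAut L) (c : ℕ) (l : L) :
    Additive.ofMul ((fun x => φ x / x)^[c] l) = ((toE φ - 1) ^ c) (Additive.ofMul l) := by
  induction c with
  | zero => rfl
  | succ c ih =>
    rw [Function.iterate_succ_apply', pow_succ', Module.End.mul_apply, ← ih]
    rfl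

theorem finite_torsion [Group.FG L] : Finite (Submodule.torsion ℤ (Additive L)) := by
  have h1 : AddGroup.FG (Additive L) := inferInstance
  have h2 : Module.Finite ℤ (Additive L) := Module.Finite.iff_addGroup_fg.2 h1
  exact Module.finite_of_fg_torsion _ (Submodule.torsion_isTorsion)

theorem torsion_stable (φ : MulAut L) (x : Additive L) (hx : x ∈ Submodule.torsion ℤ (Additive L)) :
    toE φ x ∈ Submodule.torsion ℤ (Additive L) := by
  rw [Submodule.mem_torsion_iff] at hx ⊢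
  obtain ⟨a, ha⟩ := hx
  refine ⟨a, ?_⟩
  have h1 : a • toE φ x = toE φ (a • x) := by
    change (a : ℤ) • toE φ x = toE φ ((a : ℤ) • x)
    rw [map_smul]
  rw [h1, ha, map_zero]

/-- action on the torsion subgroup -/
def actT (φ : MulAut L) : Equiv.Perm (Submodule.torsion ℤ (Additive L)) where
  toFun x := ⟨toE φ x, torsion_stable φ x x.2⟩
  invFun x := ⟨toE φ⁻¹ x, torsion_stable φ⁻¹ x x.2⟩
  left_inv x := by
    apply Subtype.ext
    change (toE φ⁻¹ * toE φ) (x : Additive L) = x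
    rw [← map_mul, inv_mul_cancel, map_one]
    rfl
  right_inv x := by
    apply Subtype.ext
    change (toE φ * toE φ⁻¹) (x : Additive L) = x
    rw [← map_mul, mul_inv_cancel, map_one]
    rfl

theorem actT_pow (φ : MulAut L) (n : ℕ) (x : Submodule.torsion ℤ (Additive L)) :
    (((actT φ) ^ n) x : Additive L) = toE (φ ^ n) x := by
  induction n with
  | zero => rfl
  | succ n ih =>
    rw [pow_succ', pow_succ', map_mul, Module.End.mul_apply, ← ih]
    rfl

theorem main (L : Type) [CommGroup L] [Group.FG L] (ρ : B →* MulAut L) (τ : MulAut L) (k : ℕ)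
    (hk : 0 < k) (h : ∀ b, τ * ρ b * τ⁻¹ = ρ ((th ^ k) b)) :
    ∃ N c : ℕ, 0 < N ∧ ∀ (b : B) (l : L), (fun x => ρ (b ^ N) x / x)^[c] l = 1 := by
  classical
  have h1 : AddGroup.FG (Additive L) := inferInstance
  have h2 : Module.Finite ℤ (Additive L) := Module.Finite.iff_addGroup_fg.2 h1
  have hfd : FiniteDimensional ℂ (ℂ ⊗[ℤ] Additive L) := Module.Finite.base_change ℤ ℂ (Additive L)
  have hft : Finite (Submodule.torsion ℤ (Additive L)) := finite_torsion
  let BC : Module.End ℤ (Additive L) →* Module.End ℂ (ℂ ⊗[ℤ] Additive L) :=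
    (Module.End.baseChangeHom ℤ ℂ (Additive L) : _ →ₐ[ℤ] _)
  let R : B →* Module.End ℂ (ℂ ⊗[ℤ] Additive L) := BC.comp (toE.comp ρ)
  obtain ⟨m, hm, hnil⟩ := nil_part R (th ^ k) (BC (toE τ)) (BC (toE τ⁻¹))
    (by rw [← map_mul, ← map_mul, inv_mul_cancel, map_one, map_one])
    (by
      intro b
      change BC (toE τ) * BC (toE (ρ b)) * BC (toE τ⁻¹) = BC (toE (ρ ((th ^ k) b)))
      rw [← map_mul, ← map_mul, ← map_mul, ← map_mul, h])
  obtain ⟨N₁, hN₁, hroot⟩ := exists_root (k * m) (Nat.mul_pos hk hm)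
  have hnil2 : ∀ b, IsNilpotent (R (b ^ N₁) - 1) := by
    intro b
    obtain ⟨b₁, hb₁⟩ := hroot b
    rw [hb₁, pow_mul]
    exact hnil b₁
  set d := Module.finrank ℂ (ℂ ⊗[ℤ] Additive L) with hd
  have htors : ∀ (b : B) (x : Additive L),
      ((toE (ρ (b ^ N₁)) - 1) ^ d) x ∈ Submodule.torsion ℤ (Additive L) := by
    intro b x
    apply torsion_of_tmul
    have h3 := pow_finrank_eq_zero (hnil2 b)
    have h4 : R (b ^ N₁) - 1 = Module.End.baseChangeHom ℤ ℂ (Additive L)
        (toE (ρ (b ^ N₁)) - 1) := by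
      rw [map_sub, map_one]
      rfl
    rw [h4, ← map_pow] at h3
    have h5 := congrArg (fun f : Module.End ℂ (ℂ ⊗[ℤ] Additive L) => f ((1 : ℂ) ⊗ₜ[ℤ] x)) h3
    have h6 : LinearMap.baseChange ℂ ((toE (ρ (b ^ N₁)) - 1) ^ d) ((1 : ℂ) ⊗ₜ[ℤ] x) = 0 := h5
    rw [LinearMap.baseChange_tmul] at h6
    exact h6
  let P := Nat.card (Equiv.Perm (Submodule.torsion ℤ (Additive L)))
  have hP : 0 < P := Nat.card_pos
  refine ⟨P * N₁, d + 1, Nat.mul_pos hP hN₁, fun b l => ?_⟩
  have h6 : ∀ x ∈ Submodule.torsion ℤ (Additive L), toE (ρ (b ^ (P * N₁))) x = x := by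
    intro x hx
    have h7 := actT_pow (ρ (b ^ N₁)) P ⟨x, hx⟩
    rw [pow_card_eq_one'] at h7
    rw [mul_comm, pow_mul, map_pow]
    exact h7.symm
  apply Additive.ofMul.injective
  rw [iter_eq, pow_succ', Module.End.mul_apply]
  have h8 := htors (b ^ P) (Additive.ofMul l)
  rw [← pow_mul] at h8
  rw [LinearMap.sub_apply, h6 _ h8, Module.End.one_apply, sub_self]
  rfl

end fin

end Pool.Agent.H100.EMU

namespace Pool.Agent.H100

theorem em_uni : Pool.Agent.H316.EM.S_UNI := fun L _ _ ρ τ k hk h => EMU.main L ρ τ k hk h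

end Pool.Agent.H100
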