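import Pool.Agent.H979.FC.Stm

set_option autoImplicit false
set_option linter.unusedSectionVars false

open MeasureTheory ProbabilityTheory Finset
open scoped ENNReal NNReal

/-!
# Project FC (helper979): no survival in the subcritical regime
-/

namespace Pool.Agent.H100.FCSUB

open Pool.Agent.H979 Pool.Agent.H979.FR Pool.Agent.H979.FC

/-! ### Deterministic part -/

section det

variable {V : Type} (R : V → V → Prop) (o : V)

/-- the points which can be reached in at most `m` steps -/
def D : ℕ → Set V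
  | 0 => {o}
  | m + 1 => D m ∪ {y | ∃ x ∈ D m, R x y}

theorem D_succ (m : ℕ) : D R o (m + 1) = D R o m ∪ {y | ∃ x ∈ D R o m, R x y} := rfl

theorem D_fin (hR : ∀ x, {y | R x y}.Finite) (m : ℕ) : (D R o m).Finite := by
  induction m with
  | zero => exact Set.finite_singleton o
  | succ m ih =>
    rw [D_succ]
    refine ih.union ?_
    have h1 : {y | ∃ x ∈ D R o m, R x y} = ⋃ x ∈ D R o m, {y | R x y} := by
      ext y
      simp
    rw [h1]
    exact ih.biUnion fun x _ => hR x

theorem D_mono {m n : ℕ} (h : m ≤ n) : D R o m ⊆ D R o n := by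
  induction n, h using Nat.le_induction with
  | base => exact subset_rfl
  | succ n _ ih =>
    rw [D_succ]
    exact ih.trans Set.subset_union_left

/-- a shortest path -/
theorem path_of_rank (m : ℕ) : ∀ y, y ∈ D R o m → (∀ j < m, y ∉ D R o j) →
    ∃ f : ℕ → V, f 0 = o ∧ f m = y ∧ (∀ i < m, R (f i) (f (i + 1))) ∧
      ∀ i ≤ m, f i ∈ D R o i ∧ ∀ j < i, f i ∉ D R o j := by
  induction m with
  | zero =>
    intro y hy _
    have hy' : y = o := hy
    subst hy'
    refine ⟨fun _ => y, rfl, rfl, fun i hi => absurd hi (Nat.not_lt_zero i), fun i hi => ?_⟩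
    have : i = 0 := Nat.le_zero.1 hi
    subst this
    exact ⟨rfl, fun j hj => absurd hj (Nat.not_lt_zero j)⟩
  | succ m ih =>
    intro y hy hy'
    rw [D_succ] at hy
    rcases hy with hy | ⟨x, hx, hxy⟩
    · exact absurd hy (hy' m (Nat.lt_succ_self m))
    · have hx' : ∀ j < m, x ∉ D R o j := by
        intro j hj hxj
        refine hy' (j + 1) (by omega) ?_
        rw [D_succ]
        exact Or.inr ⟨x, hxj, hxy⟩
      obtain ⟨f, hf0, hfm, hfR, hfD⟩ := ih x hx hx'
      classical
      refine ⟨Function.update f (m + 1) y, ?_, ?_, ?_, ?_⟩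
      · rw [Function.update_of_ne (by omega)]
        exact hf0
      · rw [Function.update_self]
      · intro i hi
        rw [Function.update_of_ne (by omega : i ≠ m + 1)]
        rcases Nat.lt_or_ge i m with h | h
        · rw [Function.update_of_ne (by omega : i + 1 ≠ m + 1)]
          exact hfR i h
        · have : i = m := by omega
          subst this
          rw [Function.update_self, hfm]
          exact hxy
      · intro i hi
        rcases Nat.lt_or_ge i (m + 1) with h | h
        · rw [Function.update_of_ne (by omega : i ≠ m + 1)]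
          exact hfD i (by omega)
        · have : i = m + 1 := by omega
          subst this
          rw [Function.update_self]
          refine ⟨?_, hy'⟩
          rw [D_succ]
          exact Or.inr ⟨x, hx, hxy⟩

/-- long chains of different points -/
theorem chain (hR : ∀ x, {y | R x y}.Finite) {S : Set V} (hS : S.Infinite)
    (hreach : ∀ y ∈ S, ∃ m, y ∈ D R o m) (n : ℕ) :
    ∃ f : ℕ → V, f 0 = o ∧ (∀ i < n, R (f i) (f (i + 1))) ∧
      ∀ i ≤ n, ∀ j ≤ n, f i = f j → i = j := by
  classical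
  obtain ⟨y, hyS, hyn⟩ := (hS.sdiff (D_fin R o hR n)).nonempty
  have hex := hreach y hyS
  have hm := Nat.find_spec hex
  have hmin : ∀ j < Nat.find hex, y ∉ D R o j := fun j hj => Nat.find_min hex hj
  have hnm : n < Nat.find hex := by
    by_contra h
    exact hyn (D_mono R o (not_lt.1 h) hm)
  obtain ⟨f, hf0, -, hfR, hfD⟩ := path_of_rank R o _ y hm hmin
  refine ⟨f, hf0, fun i hi => hfR i (by omega), ?_⟩
  have key : ∀ i j, j ≤ n → i < j → f i ≠ f j := by
    intro i j hj hij h
    have h1 := (hfD i (by omega)).1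
    have h2 := (hfD j (by omega)).2 i hij
    rw [h] at h1
    exact h2 h1
  intro i hi j hj h
  rcases lt_trichotomy i j with h1 | h1 | h1
  · exact absurd h (key i j hj h1)
  · exact h1
  · exact absurd h.symm (key j i hi h1)

end det

/-! ### Sums over chains -/

section sums

variable {V : Type} (k : V → V → ℝ≥0∞)

/-- the sum of the weights of all chains of length `n` from `x` -/
noncomputable def K : ℕ → V → ℝ≥0∞
  | 0, _ => 1
  | n + 1, x => ∑' y, k x y * K n y

theorem K_le {c : ℝ≥0∞} (h : ∀ x, ∑' y, k x y ≤ c) (n : ℕ) : ∀ x, K k n x ≤ c ^ n := by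
  induction n with
  | zero => intro x; rw [pow_zero]; exact le_rfl
  | succ n ih =>
    intro x
    show ∑' y, k x y * K k n y ≤ c ^ (n + 1)
    calc ∑' y, k x y * K k n y ≤ ∑' y, k x y * c ^ n :=
          ENNReal.tsum_le_tsum fun y => mul_le_mul' le_rfl (ih y)
      _ = (∑' y, k x y) * c ^ n := ENNReal.tsum_mul_right
      _ ≤ c * c ^ n := mul_le_mul' (h x) le_rfl
      _ = c ^ (n + 1) := by rw [pow_succ, mul_comm]

theorem K_eq (n : ℕ) : ∀ x, ∑' f : Fin n → V,
    ∏ i : Fin n, k ((Fin.cons x f : Fin (n + 1) → V) i.castSucc) (f i) = K k n x := by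
  induction n with
  | zero =>
    intro x
    rw [tsum_eq_single (default : Fin 0 → V) (fun f hf => absurd (Subsingleton.elim f _) hf)]
    rfl
  | succ n ih =>
    intro x
    rw [← (Fin.consEquiv (fun _ : Fin (n + 1) => V)).tsum_eq]
    rw [ENNReal.tsum_prod']
    show _ = ∑' y, k x y * K k n y
    refine tsum_congr fun y => ?_
    rw [← ih y, ← ENNReal.tsum_mul_left]
    refine tsum_congr fun g => ?_
    rw [Fin.prod_univ_succ]
    rfl

end sums

/-! ### Probability -/

section prob

variable {V : Type} [MeasurableSpace V] [DiscreteMeasurableSpace V] [Countable V]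

theorem path_meas (x : V) (n : ℕ) : Measurable (fun c : ℕ × V → V => path x c n) := by
  induction n with
  | zero => exact measurable_const
  | succ n ih =>
    show Measurable (fun c : ℕ × V → V => c (n, path x c n))
    refine measurable_to_countable' ?_
    intro y
    have h1 : (fun c : ℕ × V → V => c (n, path x c n)) ⁻¹' {y} =
        ⋃ z : V, ((fun c : ℕ × V → V => path x c n) ⁻¹' {z}) ∩
          ((fun c : ℕ × V → V => c (n, z)) ⁻¹' {y}) := by
      ext c
      simp
    rw [h1]
    exact MeasurableSet.iUnion fun z => (ih (measurableSet_singleton z)).inter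
      ((measurable_pi_apply _) (measurableSet_singleton y))

/-- some particle visits `y` -/
def B (t : ℝ) (x y : V) : Set (ℕ × (ℕ → FR.Part V)) := {p | ∃ i < p.1, y ∈ visits t x (p.2 i)}

theorem B_meas (hM : FR.S_MEAS) (t : ℝ) (x y : V) : MeasurableSet (B t x y) := by
  have h1 : B t x y = ⋃ i : ℕ, (Prod.fst ⁻¹' (Set.Ioi i)) ∩
      ((fun p : ℕ × (ℕ → FR.Part V) => p.2 i) ⁻¹' {ξ | y ∈ visits t x ξ}) := by
    ext p
    simp [B]
  rw [h1]
  refine MeasurableSet.iUnion fun i => ?_
  refine (measurable_fst (measurableSet_Ioi)).inter ?_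
  exact ((measurable_pi_apply i).comp measurable_snd) (hM V t x y)

variable (G : SimpleGraph V) [G.LocallyFinite]

/-- the law of the randomness of one vertex -/
noncomputable def mu0 (lam : ℝ≥0) : Measure (ℕ × (ℕ → FR.Part V)) :=
  (poissonMeasure lam).prod (Measure.infinitePi fun _ : ℕ => partLaw G)

instance (lam : ℝ≥0) : IsProbabilityMeasure (mu0 G lam) := by unfold mu0; infer_instance

theorem law_eq (lam : ℝ≥0) : law G lam = Measure.infinitePi fun _ : V => mu0 G lam := rfl

theorem mp_eval (lam : ℝ≥0) (x : V) :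
    MeasurePreserving (fun ω : Conf V => ω x) (law G lam) (mu0 G lam) :=
  measurePreserving_eval_infinitePi (fun _ : V => mu0 G lam) x

/-- the probability that some particle of `x` visits `y` -/
theorem B_le (hP : FR.S_POI) (hM : FR.S_MEAS) (lam : ℝ≥0) (t : ℝ) (x y : V) :
    mu0 G lam (B t x y) ≤ lam * partLaw G {ξ | y ∈ visits t x ξ} := by
  have hB := B_meas hM t x y
  have h1 := (mp_eval G lam x).measure_preimage hB.nullMeasurableSet
  have h2 := hP V G lam {x} (fun x' => {ξ | y ∈ visits t x' ξ}) (fun x' => hM V t x' y)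
  have h3 : {ω : Conf V | ∀ x' ∈ ({x} : Finset V), ∀ i < (ω x').1,
      (ω x').2 i ∉ {ξ | y ∈ visits t x' ξ}} = ((fun ω : Conf V => ω x) ⁻¹' (B t x y))ᶜ := by
    ext ω
    simp [B]
  rw [h3, Finset.sum_singleton] at h2
  rw [← h1]
  have h4 := prob_compl_eq_one_sub (μ := law G lam) ((mp_eval G lam x).measurable hB).compl
  rw [compl_compl, h2] at h4
  rw [h4, tsub_le_iff_right]
  have h5 : (lam : ℝ≥0∞) * partLaw G {ξ | y ∈ visits t x ξ} =
      ENNReal.ofReal ((lam : ℝ) * (partLaw G {ξ | y ∈ visits t x ξ}).toReal) := by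
    rw [ENNReal.ofReal_mul (NNReal.coe_nonneg lam), ENNReal.ofReal_toReal (measure_ne_top _ _),
      ENNReal.ofReal_coe_nnreal]
  rw [h5, ← ENNReal.ofReal_add (mul_nonneg (NNReal.coe_nonneg lam) ENNReal.toReal_nonneg) (Real.exp_pos _).le,
    ← ENNReal.ofReal_one]
  apply ENNReal.ofReal_le_ofReal
  have := Real.one_sub_le_exp_neg ((lam : ℝ) * (partLaw G {ξ | y ∈ visits t x ξ}).toReal)
  linarith

/-- independence -/
theorem prodB (lam : ℝ≥0) {n : ℕ} (f : Fin n → V) (hf : Function.Injective f)
    (Bs : Fin n → Set (ℕ × (ℕ → FR.Part V))) (hB : ∀ i, MeasurableSet (Bs i)) :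
    law G lam {ω | ∀ i, ω (f i) ∈ Bs i} = ∏ i, mu0 G lam (Bs i) := by
  have h1 := Measure.map_infinitePi_infinitePi_of_inj (P := fun _ : V => mu0 G lam) hf
  have hm : Measurable (fun (ω : Conf V) (i : Fin n) => ω (f i)) := by fun_prop
  have h2 : {ω : Conf V | ∀ i, ω (f i) ∈ Bs i} = (fun (ω : Conf V) (i : Fin n) => ω (f i)) ⁻¹'
      (Set.pi ((Finset.univ : Finset (Fin n)) : Set (Fin n)) Bs) := by
    ext ω
    simp
  have h3 : MeasurableSet (Set.pi ((Finset.univ : Finset (Fin n)) : Set (Fin n)) Bs) :=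
    MeasurableSet.pi (Set.to_countable _) fun i _ => hB i
  rw [h2, ← Measure.map_apply hm h3, law_eq, h1, Measure.infinitePi_pi _ fun i _ => hB i]

/-- all particles make finitely many jumps -/
theorem ae_fin (hCL : S_CLKA) (lam : ℝ≥0) {t : ℝ} (ht : 0 ≤ t) :
    ∀ᵐ ω ∂(law G lam), ∀ x : V, ∀ i : ℕ, ∃ k : ℕ, ∀ n : ℕ,
      ∑ j ∈ range n, ((ω x).2 i).1 j ≤ t ↔ n ≤ k := by
  rw [ae_all_iff]
  intro x
  rw [ae_all_iff]
  intro i
  have h1 : MeasurePreserving (fun p : ℕ × (ℕ → FR.Part V) => p.2) (mu0 G lam)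
      (Measure.infinitePi fun _ : ℕ => partLaw G) := measurePreserving_snd
  have h2 : MeasurePreserving (fun p : ℕ → FR.Part V => p i)
      (Measure.infinitePi fun _ : ℕ => partLaw G) (partLaw G) :=
    measurePreserving_eval_infinitePi (fun _ : ℕ => partLaw G) i
  have h3 : MeasurePreserving (fun p : FR.Part V => p.1) (partLaw G) clockLaw :=
    measurePreserving_fst
  have h4 := ((h3.comp h2).comp h1).comp (mp_eval G lam x)
  exact h4.quasiMeasurePreserving.ae (hCL t ht)

theorem visits_fin {t : ℝ} (x : V) {ξ : FR.Part V} {k : ℕ}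
    (hk : ∀ n : ℕ, ∑ j ∈ range n, ξ.1 j ≤ t ↔ n ≤ k) : (visits t x ξ).Finite := by
  refine ((Set.finite_Iic k).image (fun n => path x ξ.2 n)).subset ?_
  rintro y ⟨n, hn, rfl⟩
  exact ⟨n, (hk n).1 hn, rfl⟩

theorem out_fin {t : ℝ} {ω : Conf V} (h : ∀ x : V, ∀ i : ℕ, ∃ k : ℕ, ∀ n : ℕ,
    ∑ j ∈ range n, ((ω x).2 i).1 j ≤ t ↔ n ≤ k) (x : V) : {y | ω x ∈ B t x y}.Finite := by
  have h1 : {y | ω x ∈ B t x y} = ⋃ i ∈ Set.Iio (ω x).1, visits t x ((ω x).2 i) := by
    ext y
    simp [B]
  rw [h1]
  refine (Set.finite_Iio _).biUnion fun i _ => ?_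
  obtain ⟨k, hk⟩ := h x i
  exact visits_fin x hk

theorem visited_reach {t : ℝ} {ω : Conf V} {o y : V} (h : Visited t ω o y) :
    ∃ m, y ∈ D (fun x y => ω x ∈ B t x y) o m := by
  induction h with
  | start => exact ⟨0, rfl⟩
  | step i _ hi hy ih =>
    obtain ⟨m, hm⟩ := ih
    exact ⟨m + 1, Or.inr ⟨_, hm, ⟨i, hi, hy⟩⟩⟩

/-- the mean of the Poisson law -/
theorem mean_q {t : ℝ} (ht : 0 ≤ t) : ∑' k : ℕ, (k : ℝ≥0∞) * ENNReal.ofReal (q k t) =
    ENNReal.ofReal t := by
  have hq : ∀ k, 0 ≤ q k t := by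
    intro k
    unfold q
    positivity
  have h1 : ∑' k : ℕ, ENNReal.ofReal (q k t) = 1 := by
    have h2 : HasSum (fun k => q k t) 1 := by
      have h3 : HasSum (fun n : ℕ => t ^ n / (n.factorial : ℝ)) (Real.exp t) := by
        have := NormedSpace.expSeries_div_hasSum_exp t
        rw [← Real.exp_eq_exp_ℝ] at this
        exact this
      have h4 := h3.mul_left (Real.exp (-t))
      rw [← Real.exp_add, neg_add_cancel, Real.exp_zero] at h4
      refine h4.congr_fun ?_ |> fun h => h
      intro k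
      unfold q
      ring
    rw [← ENNReal.ofReal_tsum_of_nonneg hq h2.summable, h2.tsum_eq, ENNReal.ofReal_one]
  rw [tsum_eq_zero_add' ENNReal.summable]
  have h5 : ∀ k : ℕ, ((k + 1 : ℕ) : ℝ≥0∞) * ENNReal.ofReal (q (k + 1) t) =
      ENNReal.ofReal t * ENNReal.ofReal (q k t) := by
    intro k
    rw [← ENNReal.ofReal_natCast, ← ENNReal.ofReal_mul (Nat.cast_nonneg _),
      ← ENNReal.ofReal_mul ht]
    congr 1
    unfold q
    rw [Nat.factorial_succ, pow_succ]
    push_cast
    have : (k : ℝ) + 1 ≠ 0 := by positivity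
    field_simp
  simp only [h5, Nat.cast_zero, zero_mul, zero_add]
  rw [ENNReal.tsum_mul_left, h1, mul_one]

/-- the mean number of visited vertices -/
theorem sumh (hKL : S_KLAW) (hCL : S_CLKA) {t : ℝ} (ht : 0 ≤ t) (x : V) :
    ∑' y, (open Classical in if y = x then 0 else partLaw G {ξ | y ∈ visits t x ξ}) ≤
      ENNReal.ofReal t := by
  classical
  have hS : ∀ n : ℕ, MeasurableSet {E : ℕ → ℝ | ∑ j ∈ range n, E j ≤ t} := fun n =>
    measurableSet_le (by fun_prop) measurable_const
  have hA : ∀ (n : ℕ) (y : V), MeasurableSet {ξ : FR.Part V | ∑ j ∈ range (n + 1), ξ.1 j ≤ t ∧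
      path x ξ.2 (n + 1) = y} := by
    intro n y
    exact (measurable_fst (hS (n + 1))).inter
      (((path_meas x (n + 1)).comp measurable_snd) (measurableSet_singleton y))
  have h1 : ∀ y, (if y = x then 0 else partLaw G {ξ | y ∈ visits t x ξ}) ≤
      ∑' n : ℕ, partLaw G {ξ | ∑ j ∈ range (n + 1), ξ.1 j ≤ t ∧ path x ξ.2 (n + 1) = y} := by
    intro y
    split_ifs with hy
    · exact zero_le
    · refine le_trans (measure_mono ?_) (measure_iUnion_le _)
      rintro ξ ⟨n, hn, hny⟩
      rcases n with _ | n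
      · exact absurd hny.symm hy
      · exact Set.mem_iUnion.2 ⟨n, hn, hny⟩
  have h2 : ∀ n : ℕ, ∑' y, partLaw G {ξ | ∑ j ∈ range (n + 1), ξ.1 j ≤ t ∧
      path x ξ.2 (n + 1) = y} ≤ ∑' k : ℕ, if n + 1 ≤ k then ENNReal.ofReal (q k t) else 0 := by
    intro n
    rw [← measure_iUnion (fun y y' hyy => by
      rw [Function.onFun, Set.disjoint_left]
      rintro ξ ⟨-, h3⟩ ⟨-, h4⟩
      exact hyy (h3.symm.trans h4)) (hA n)]
    have h3 : partLaw G (⋃ y, {ξ | ∑ j ∈ range (n + 1), ξ.1 j ≤ t ∧ path x ξ.2 (n + 1) = y}) ≤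
        clockLaw {E | ∑ j ∈ range (n + 1), E j ≤ t} := by
      have h4 : MeasurePreserving (fun p : FR.Part V => p.1) (partLaw G) clockLaw :=
        measurePreserving_fst
      rw [← h4.measure_preimage (hS (n + 1)).nullMeasurableSet]
      apply measure_mono
      intro ξ hξ
      obtain ⟨y, hy, -⟩ := Set.mem_iUnion.1 hξ
      exact hy
    refine h3.trans ?_
    have h5 : clockLaw {E | ∑ j ∈ range (n + 1), E j ≤ t} ≤
        clockLaw (⋃ k : ℕ, if n + 1 ≤ k then
          {E : ℕ → ℝ | ∀ n : ℕ, ∑ j ∈ range n, E j ≤ t ↔ n ≤ k} else ∅) := by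
      apply measure_mono_ae
      filter_upwards [hCL t ht] with E hE hEn
      obtain ⟨k, hk⟩ := hE
      refine Set.mem_iUnion.2 ⟨k, ?_⟩
      rw [if_pos ((hk (n + 1)).1 hEn)]
      exact hk
    refine h5.trans ((measure_iUnion_le _).trans (ENNReal.tsum_le_tsum fun k => ?_))
    split_ifs
    · exact (hKL t ht k).le
    · rw [measure_empty]
  calc ∑' y, (if y = x then 0 else partLaw G {ξ | y ∈ visits t x ξ})
      ≤ ∑' y, ∑' n : ℕ, partLaw G {ξ | ∑ j ∈ range (n + 1), ξ.1 j ≤ t ∧
        path x ξ.2 (n + 1) = y} := ENNReal.tsum_le_tsum h1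
    _ = ∑' n : ℕ, ∑' y, partLaw G {ξ | ∑ j ∈ range (n + 1), ξ.1 j ≤ t ∧
        path x ξ.2 (n + 1) = y} := ENNReal.tsum_comm
    _ ≤ ∑' n : ℕ, ∑' k : ℕ, (if n + 1 ≤ k then ENNReal.ofReal (q k t) else 0) :=
        ENNReal.tsum_le_tsum h2
    _ = ∑' k : ℕ, ∑' n : ℕ, (if n + 1 ≤ k then ENNReal.ofReal (q k t) else 0) :=
        ENNReal.tsum_comm
    _ = ∑' k : ℕ, (k : ℝ≥0∞) * ENNReal.ofReal (q k t) := by
        refine tsum_congr fun k => ?_
        rw [tsum_eq_sum (s := range k) (fun n hn => if_neg (by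
          rw [Finset.mem_range] at hn
          omega))]
        rw [Finset.sum_congr rfl (fun n hn => if_pos (by
          rw [Finset.mem_range] at hn
          omega)), Finset.sum_const, Finset.card_range, nsmul_eq_mul]
    _ = ENNReal.ofReal t := mean_q ht

end prob

/-- **SUB** -/
theorem main (hKL : S_KLAW) (hCL : S_CLKA) (hP : FR.S_POI) (hM : FR.S_MEAS) : S_SUB := by
  intro V _ _ _ G _ d _ _ lam t hlt o
  classical
  set k : V → V → ℝ≥0∞ := fun x y => if y = x then 0 else
    lam * partLaw G {ξ | y ∈ visits (t : ℝ) x ξ} with hk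
  set c : ℝ≥0∞ := ((lam * t : ℝ≥0) : ℝ≥0∞) with hc
  have hc1 : c < 1 := by
    rw [hc]
    exact_mod_cast hlt
  have hsum : ∀ x, ∑' y, k x y ≤ c := by
    intro x
    have h1 : ∀ y, k x y = lam * (if y = x then 0 else partLaw G {ξ | y ∈ visits (t : ℝ) x ξ}) := by
      intro y
      simp only [hk]
      split_ifs
      · rw [mul_zero]
      · rfl
    calc ∑' y, k x y = ∑' y, lam * (if y = x then 0 else partLaw G {ξ | y ∈ visits (t : ℝ) x ξ}) :=
          tsum_congr h1
      _ = lam * ∑' y, (if y = x then 0 else partLaw G {ξ | y ∈ visits (t : ℝ) x ξ}) :=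
          ENNReal.tsum_mul_left
      _ ≤ lam * ENNReal.ofReal (t : ℝ) := mul_le_mul' le_rfl (sumh G hKL hCL t.2 x)
      _ = c := by
          rw [ENNReal.ofReal_coe_nnreal, hc, ENNReal.coe_mul]
  -- the chains
  have hmain : ∀ n : ℕ, law G lam (Survives (t : ℝ) o) ≤ c ^ n := by
    intro n
    have h1 : law G lam (Survives (t : ℝ) o) ≤ law G lam (⋃ g : Fin n → V,
        {ω | Function.Injective (Fin.cons o g : Fin (n + 1) → V) ∧
          ∀ i : Fin n, ω ((Fin.cons o g : Fin (n + 1) → V) i.castSucc) ∈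
            B (t : ℝ) ((Fin.cons o g : Fin (n + 1) → V) i.castSucc) (g i)}) := by
      apply measure_mono_ae
      filter_upwards [ae_fin G hCL lam t.2] with ω hω hs
      obtain ⟨f, hf0, hfR, hfi⟩ := chain (fun x y => ω x ∈ B (t : ℝ) x y) o (out_fin hω)
        (show {y | Visited (t : ℝ) ω o y}.Infinite from hs) (fun y hy => visited_reach hy) n
      refine Set.mem_iUnion.2 ⟨fun i => f (i + 1), ?_⟩
      have hcons : (Fin.cons o (fun i : Fin n => f (i + 1)) : Fin (n + 1) → V) =
          fun i : Fin (n + 1) => f (i : ℕ) := by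
        funext i
        refine Fin.cases ?_ (fun j => ?_) i
        · rw [Fin.cons_zero]
          exact hf0.symm
        · rw [Fin.cons_succ, Fin.val_succ]
      refine ⟨?_, ?_⟩
      · rw [hcons]
        intro i j hij
        exact Fin.ext (hfi i (by omega) j (by omega) hij)
      · intro i
        rw [hcons]
        exact hfR i i.2
    refine h1.trans ((measure_iUnion_le _).trans ?_)
    have h2 : ∀ g : Fin n → V, law G lam {ω | Function.Injective (Fin.cons o g : Fin (n + 1) → V) ∧
          ∀ i : Fin n, ω ((Fin.cons o g : Fin (n + 1) → V) i.castSucc) ∈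
            B (t : ℝ) ((Fin.cons o g : Fin (n + 1) → V) i.castSucc) (g i)} ≤
        ∏ i : Fin n, k ((Fin.cons o g : Fin (n + 1) → V) i.castSucc) (g i) := by
      intro g
      by_cases hg : Function.Injective (Fin.cons o g : Fin (n + 1) → V)
      · have h3 := prodB G lam (fun i : Fin n => (Fin.cons o g : Fin (n + 1) → V) i.castSucc)
          (hg.comp (Fin.castSucc_injective n))
          (fun i => B (t : ℝ) ((Fin.cons o g : Fin (n + 1) → V) i.castSucc) (g i))
          (fun i => B_meas hM _ _ _)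
        refine (measure_mono ?_).trans (h3.le.trans (Finset.prod_le_prod' fun i _ => ?_))
        · rintro ω ⟨-, h4⟩
          exact h4
        · have h5 : g i ≠ (Fin.cons o g : Fin (n + 1) → V) i.castSucc := by
            intro h6
            have h7 : (Fin.cons o g : Fin (n + 1) → V) i.succ =
                (Fin.cons o g : Fin (n + 1) → V) i.castSucc := by
              rw [Fin.cons_succ]
              exact h6
            have h8 := congrArg Fin.val (hg h7)
            rw [Fin.val_succ, Fin.val_castSucc] at h8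
            omega
          simp only [hk]
          rw [if_neg h5]
          exact B_le G hP hM lam _ _ _
      · have h3 : {ω : Conf V | Function.Injective (Fin.cons o g : Fin (n + 1) → V) ∧
          ∀ i : Fin n, ω ((Fin.cons o g : Fin (n + 1) → V) i.castSucc) ∈
            B (t : ℝ) ((Fin.cons o g : Fin (n + 1) → V) i.castSucc) (g i)} = ∅ := by
          ext ω
          simp only [Set.mem_empty_iff_false, iff_false]
          exact fun h => hg h.1
        rw [h3, measure_empty]
        exact zero_le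
    refine (ENNReal.tsum_le_tsum h2).trans ?_
    rw [K_eq k n o]
    exact K_le k hsum n o
  have h9 := ENNReal.tendsto_pow_atTop_nhds_zero_of_lt_one hc1
  exact le_antisymm (ge_of_tendsto' h9 hmain) zero_le

end Pool.Agent.H100.FCSUB

namespace Pool.Agent.H100

open Pool.Agent.H979 Pool.Agent.H979.FC in
/-- **SUB** -/
theorem fc_sub (hKL : S_KLAW) (hCL : S_CLKA) (hP : FR.S_POI) (hM : FR.S_MEAS) : S_SUB :=
  FCSUB.main hKL hCL hP hM

end Pool.Agent.H100
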