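import Pool.Agent.H867.FT.Gen

/-!
# FTG EXT: Cartier maps extend to localizations (helper100, for helper867)
-/

set_option autoImplicit false

namespace Pool.Agent.H100.FT867EXT

open Pool.Agent.H867.FT

variable {A B : Type} [CommRing A] [CommRing B] [Algebra A B] (M : Submonoid A)
  [IsLocalization M B]

/-- The value on a fraction. -/
lemma wd {k : ℕ} {φ : A →+ A} (hφ : IsCartier (k + 1) φ) {a b : A} {s t : M}
    (h : IsLocalization.mk' B a s = IsLocalization.mk' B b t) :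
    IsLocalization.mk' B (φ (a * (s : A) ^ k)) s = IsLocalization.mk' B (φ (b * (t : A) ^ k)) t := by
  obtain ⟨c, hc⟩ := IsLocalization.eq.1 h
  refine IsLocalization.eq.2 ⟨c, ?_⟩
  have h1 : (c : A) * ((t : A) * φ (a * (s : A) ^ k)) =
      φ (((c : A) * t) ^ (k + 1) * (a * (s : A) ^ k)) := by
    rw [hφ]; ring
  have h2 : (c : A) * ((s : A) * φ (b * (t : A) ^ k)) =
      φ (((c : A) * s) ^ (k + 1) * (b * (t : A) ^ k)) := by
    rw [hφ]; ring
  rw [h1, h2]
  congr 1
  have h3 : ((c : A) * t) ^ (k + 1) * (a * (s : A) ^ k) =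
      ((c : A) * (t * a)) * (((c : A) * t) ^ k * (s : A) ^ k) := by ring
  have h4 : ((c : A) * s) ^ (k + 1) * (b * (t : A) ^ k) =
      ((c : A) * (s * b)) * (((c : A) * s) ^ k * (t : A) ^ k) := by ring
  rw [h3, h4, hc]
  ring

/-- The extension as a function. -/
noncomputable def ext0 (k : ℕ) (φ : A →+ A) (z : B) : B :=
  IsLocalization.mk' B (φ ((IsLocalization.sec M z).1 * ((IsLocalization.sec M z).2 : A) ^ k))
    (IsLocalization.sec M z).2

lemma ext0_mk {k : ℕ} {φ : A →+ A} (hφ : IsCartier (k + 1) φ) (a : A) (s : M) :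
    ext0 M k φ (IsLocalization.mk' B a s) = IsLocalization.mk' B (φ (a * (s : A) ^ k)) s :=
  wd M hφ (IsLocalization.mk'_sec B (IsLocalization.mk' B a s))

theorem ext : S_EXT := by
  intro A B _ _ _ M _ q φ hq hφ
  obtain ⟨k, rfl⟩ : ∃ k, q = k + 1 := ⟨q - 1, by omega⟩
  have hmk := fun a s => ext0_mk (B := B) M hφ a s
  have hadd : ∀ x y : B, ext0 M k φ (x + y) = ext0 M k φ x + ext0 M k φ y := by
    intro x y
    obtain ⟨a, s, rfl⟩ := IsLocalization.exists_mk'_eq M x
    obtain ⟨b, t, rfl⟩ := IsLocalization.exists_mk'_eq M y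
    rw [← IsLocalization.mk'_add, hmk, hmk, hmk, ← IsLocalization.mk'_add]
    congr 1
    have h1 : (a * (t : A) + b * (s : A)) * ((s * t : M) : A) ^ k =
        (t : A) ^ (k + 1) * (a * (s : A) ^ k) + (s : A) ^ (k + 1) * (b * (t : A) ^ k) := by
      rw [Submonoid.coe_mul]; ring
    rw [h1, map_add, hφ, hφ]
    ring
  refine ⟨AddMonoidHom.mk' (ext0 M k φ) hadd, ?_, ?_⟩
  · intro x y
    obtain ⟨a, s, rfl⟩ := IsLocalization.exists_mk'_eq M x
    obtain ⟨b, t, rfl⟩ := IsLocalization.exists_mk'_eq M y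
    rw [AddMonoidHom.mk'_apply, ← IsLocalization.mk'_pow,
      ← IsLocalization.mk'_mul, hmk, hmk, ← IsLocalization.mk'_mul]
    have h1 : a ^ (k + 1) * b * ((s ^ (k + 1) * t : M) : A) ^ k =
        (a * (s : A) ^ k) ^ (k + 1) * (b * (t : A) ^ k) := by
      rw [Submonoid.coe_mul, SubmonoidClass.coe_pow]; ring
    rw [h1, hφ]
    apply IsLocalization.mk'_eq_of_eq
    rw [Submonoid.coe_mul, Submonoid.coe_mul, SubmonoidClass.coe_pow]
    ring
  · intro a
    rw [AddMonoidHom.mk'_apply, ← IsLocalization.mk'_one (M := M) B a, hmk,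
      ← IsLocalization.mk'_one (M := M) B (φ a)]
    congr 2
    rw [Submonoid.coe_one, one_pow, mul_one]

end Pool.Agent.H100.FT867EXT
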