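import Pool.Agent.H867.FT.Gen2

/-!
# HTN: `β ^ 4 σ ^ n` lies in `R`
-/

set_option autoImplicit false

namespace Pool.Agent.H100.FT867HTN

open Pool.Agent.H867.FT

section reg

variable {P : Type} [CommRing P] [IsDomain P] {a z : P}

theorem reg1 (h : ∀ u, a ∣ z * u → a ∣ u) (k : ℕ) : ∀ u, a ∣ z ^ k * u → a ∣ u := by
  induction k with
  | zero =>
    intro u hu
    rwa [pow_zero, one_mul] at hu
  | succ k ih =>
    intro u hu
    rw [pow_succ, mul_assoc] at hu
    exact h u (ih _ hu)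

theorem reg2 (ha : a ≠ 0) (h : ∀ u, a ∣ z * u → a ∣ u) (k m : ℕ) :
    ∀ u, a ^ m ∣ z ^ k * u → a ^ m ∣ u := by
  induction m with
  | zero =>
    intro u _
    rw [pow_zero]
    exact one_dvd _
  | succ m ih =>
    intro u hu
    have h1 : a ∣ z ^ k * u := (dvd_pow_self a (Nat.succ_ne_zero m)).trans hu
    obtain ⟨u', rfl⟩ := reg1 h k u h1
    rw [pow_succ', mul_left_comm] at hu
    rw [pow_succ']
    exact mul_dvd_mul_left a (ih u' ((mul_dvd_mul_iff_left ha).1 hu))

end reg

theorem pow_mem {R K : Type} [CommRing R] [Field K] [Algebra R K] (D : Submodule R K) (β : K)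
    (h : ∀ y ∈ D, ∃ r : R, β * y = algebraMap R K r) (k : ℕ) :
    ∀ y ∈ D ^ k, ∃ r : R, β ^ k * y = algebraMap R K r := by
  induction k with
  | zero =>
    intro y hy
    rw [pow_zero, Submodule.mem_one] at hy
    obtain ⟨r, hr⟩ := hy
    exact ⟨r, by rw [pow_zero, one_mul, hr]⟩
  | succ k ih =>
    intro y hy
    rw [pow_succ] at hy
    refine Submodule.mul_induction_on hy ?_ ?_
    · intro x hx t ht
      obtain ⟨r, hr⟩ := ih x hx
      obtain ⟨s, hs⟩ := h t ht
      refine ⟨r * s, ?_⟩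
      rw [map_mul, ← hr, ← hs]
      ring
    · rintro x t ⟨r, hr⟩ ⟨s, hs⟩
      refine ⟨r + s, ?_⟩
      rw [map_add, ← hr, ← hs]
      ring

theorem htn : S_HTN := by
  intro P R K _ _ _ _ _ _ _ _ _ _ _ _ C β σ a z n ha hreg hC h1 h2
  have hpow := pow_mem (C ^ n) β hC 4
  have hmem : ∀ t : P, algebraMap P K (t ^ 2) * σ ∈ C ^ 4 →
      ∃ r : R, algebraMap P K (t ^ (2 * n)) * (β ^ 4 * σ ^ n) = algebraMap R K r := by
    intro t ht
    have e1 : (algebraMap P K (t ^ 2) * σ) ^ n ∈ (C ^ n) ^ 4 := by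
      have e2 := Submodule.pow_mem_pow (C ^ 4) ht n
      rw [← pow_mul, mul_comm, pow_mul] at e2
      exact e2
    obtain ⟨r, hr⟩ := hpow _ e1
    refine ⟨r, ?_⟩
    rw [← hr, mul_pow, ← map_pow, ← pow_mul]
    ring
  obtain ⟨r₁, hr₁⟩ := hmem a h1
  obtain ⟨r₂, hr₂⟩ := hmem z h2
  have hinj := IsFractionRing.injective R K
  -- the relation
  have hrel : z ^ (2 * n) • r₁ = a ^ (2 * n) • r₂ := by
    apply hinj
    rw [Algebra.smul_def, Algebra.smul_def, map_mul, map_mul, ← IsScalarTower.algebraMap_apply,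
      ← IsScalarTower.algebraMap_apply, ← hr₁, ← hr₂]
    ring
  let b := Module.Free.chooseBasis P R
  have hdvd : ∀ i, a ^ (2 * n) ∣ b.repr r₁ i := by
    intro i
    apply reg2 ha hreg (2 * n) (2 * n)
    refine ⟨b.repr r₂ i, ?_⟩
    have e1 := congrArg (fun x => b.repr x i) hrel
    simp only [map_smul, Finsupp.smul_apply, smul_eq_mul] at e1
    exact e1
  choose g hg using hdvd
  have hr₃ : r₁ = a ^ (2 * n) • ∑ i, g i • b i := by
    conv_lhs => rw [← b.sum_repr r₁]
    rw [Finset.smul_sum]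
    refine Finset.sum_congr rfl fun i _ => ?_
    rw [smul_smul, ← hg i]
  refine ⟨∑ i, g i • b i, ?_⟩
  have ha0 : algebraMap P K (a ^ (2 * n)) ≠ 0 := by
    intro h0
    rw [IsScalarTower.algebraMap_apply P R K] at h0
    have h3 : algebraMap P R (a ^ (2 * n)) = 0 := by
      apply hinj
      rw [h0, map_zero]
    have h4 : a ^ (2 * n) • (1 : R) = 0 := by
      rw [Algebra.smul_def, h3, zero_mul]
    have h5 : b.repr (1 : R) = 0 := by
      ext i
      have e1 := congrArg (fun x => b.repr x i) h4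
      simp only [map_smul, Finsupp.smul_apply, smul_eq_mul, map_zero, Finsupp.coe_zero,
        Pi.zero_apply] at e1
      exact (mul_eq_zero.1 e1).resolve_left (pow_ne_zero _ ha)
    have h6 : (1 : R) = 0 := by
      have := b.repr.map_eq_zero_iff.1 h5
      exact this
    exact one_ne_zero h6
  apply mul_left_cancel₀ ha0
  rw [hr₁, hr₃, Algebra.smul_def, map_mul, ← IsScalarTower.algebraMap_apply]

end Pool.Agent.H100.FT867HTN
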