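import Mathlib
import Pool.Agent.H979.GW.StmB

set_option autoImplicit false

open MeasureTheory ProbabilityTheory Filter Topology Set
open scoped ENNReal NNReal

namespace Pool.Agent.H100

open Pool.Agent.H979.GW
open Pool.Agent.H979.QIP (P)

theorem bad_mono {Λ : Type} {ρ : ℝ} {W : List Λ → ℝ} {η ε x y : ℝ} (hxy : x ≤ y) {v : List Λ}
    (h : Bad ρ W η ε y v) : Bad ρ W η ε x v := by
  obtain ⟨i, h1, h2, h3⟩ := h
  exact ⟨i, h1, hxy.trans h2, h3⟩

theorem gw_lov (hocc : S_OCC) : S_LOV := by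
  classical
  intro Λ _ _ ρ hρ ch W cL σ2 η hR A ε hA hε
  obtain ⟨C, hC0, hC⟩ := hocc Λ ρ ch W cL σ2 η hR
  have hρ1 : 1 < ρ := hρ.out
  have hρ0 : 0 < ρ := zero_lt_one.trans hρ1
  have hcard : (ch []).card ≠ 0 := by
    intro h0
    have h1 := hR.W_rec [] trivial
    rw [Finset.card_eq_zero.1 h0, Finset.sum_empty] at h1
    have h2 := hR.W_root
    nlinarith
  obtain ⟨A', hA'⟩ : ∃ A' : ℕ, 2 * A ≤ A' := exists_nat_ge (2 * A)
  have hlow := hR.low ε hε A'
  -- the bounding sequence
  set G : ℕ → ℝ := fun H : ℕ => (H : ℝ) ^ 2 *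
    ∑ k ∈ Finset.range (A' * H + 1), ∑ v ∈ Lev ch k, (ρ⁻¹) ^ k * (ρ + (ch v).card) *
      (if Bad ρ W η ε (ε * H) v then 1 else 0) with hG
  have hsqrt : Tendsto (fun n : ℕ => Nat.sqrt n) atTop atTop := by
    refine tendsto_atTop.2 fun b => ?_
    filter_upwards [eventually_ge_atTop (b * b)] with n hn
    exact Nat.le_sqrt.2 hn
  have hlim : Tendsto (fun n : ℕ => ENNReal.ofReal (4 * G (Nat.sqrt n))) atTop (𝓝 0) := by
    have h1 : Tendsto (fun n : ℕ => 4 * G (Nat.sqrt n)) atTop (𝓝 (4 * 0)) :=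
      (hlow.comp hsqrt).const_mul 4
    have h2 := ENNReal.tendsto_ofReal h1
    simpa using h2
  refine tendsto_of_tendsto_of_tendsto_of_le_of_le' tendsto_const_nhds hlim
    (Eventually.of_forall fun _ => zero_le) ?_
  filter_upwards [eventually_ge_atTop 1] with n hn
  -- fix n
  set H : ℕ := Nat.sqrt n with hH
  have hH1 : 1 ≤ H := Nat.le_sqrt.2 (by omega)
  have hHR : (1 : ℝ) ≤ H := by exact_mod_cast hH1
  have hHn : (H : ℝ) ≤ √n := by
    rw [Real.le_sqrt (by positivity) (by positivity)]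
    exact_mod_cast Nat.sqrt_le' n
  have hnH : (n : ℝ) + 1 ≤ ((H : ℝ) + 1) ^ 2 := by
    exact_mod_cast Nat.succ_le_succ_sqrt' n
  have hnH2 : √(n : ℝ) ≤ (H : ℝ) + 1 := by
    rw [Real.sqrt_le_left (by positivity)]
    linarith
  set B : List Λ → Prop := fun v => ((v.length : ℝ) ≤ A * √n) ∧ Bad ρ W η ε (ε * √n) v with hB
  set f : List Λ → ℝ := fun v => if B v then (1 : ℝ) else 0 with hf
  have hf0 : ∀ v, 0 ≤ f v := fun v => by
    simp only [hf]; split_ifs <;> norm_num
  have hE : ∀ s : ℕ, P (stp ρ ch) [] {w | B (w s)} ≤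
      ENNReal.ofReal (∑ k ∈ Finset.range (s + 1), ∑ v ∈ Lev ch k,
        (ρ⁻¹) ^ k * (ρ + (ch v).card) * f v) := by
    intro s
    have h1 := coord (ρ := ρ) hcard hf0 s []
    have h2 : P (stp ρ ch) [] {w | B (w s)} =
        ∫⁻ w, ENNReal.ofReal (f (w s)) ∂(P (stp ρ ch) []) := by
      have hm : MeasurableSet {w : ℕ → List Λ | B (w s)} :=
        (measurable_pi_apply (X := fun _ : ℕ => List Λ) s)
          (show MeasurableSet {v : List Λ | B v} from MeasurableSpace.measurableSet_top)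
      have h3 : ∀ w : ℕ → List Λ, ENNReal.ofReal (f (w s)) =
          ({w : ℕ → List Λ | B (w s)}).indicator 1 w := by
        intro w
        by_cases hw : B (w s)
        · rw [Set.indicator_of_mem (by exact hw)]
          simp only [hf, if_pos hw, ENNReal.ofReal_one, Pi.one_apply]
        · rw [Set.indicator_of_notMem (by exact hw)]
          simp only [hf, if_neg hw, ENNReal.ofReal_zero]
      simp_rw [h3]
      rw [lintegral_indicator_one hm]
    rw [h2, h1]
    exact ENNReal.ofReal_le_ofReal ((hC f hf0).2 s)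
  have hle : ∀ s ≤ n, (∑ k ∈ Finset.range (s + 1), ∑ v ∈ Lev ch k,
        (ρ⁻¹) ^ k * (ρ + (ch v).card) * f v) ≤
      ∑ k ∈ Finset.range (A' * H + 1), ∑ v ∈ Lev ch k, (ρ⁻¹) ^ k * (ρ + (ch v).card) *
      (if Bad ρ W η ε (ε * H) v then 1 else 0) := by
    intro s _
    have hterm0 : ∀ (k : ℕ) (v : List Λ), 0 ≤ (ρ⁻¹) ^ k * (ρ + ((ch v).card : ℝ)) := fun k v => by
      positivity
    -- the terms with large k vanish
    have h1 : (∑ k ∈ Finset.range (s + 1), ∑ v ∈ Lev ch k,
        (ρ⁻¹) ^ k * (ρ + (ch v).card) * f v) ≤ ∑ k ∈ Finset.range (s + 1),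
        if k ∈ Finset.range (A' * H + 1) then ∑ v ∈ Lev ch k, (ρ⁻¹) ^ k * (ρ + (ch v).card) *
          (if Bad ρ W η ε (ε * H) v then 1 else 0) else 0 := by
      refine Finset.sum_le_sum fun k _ => ?_
      split_ifs with hk
      · refine Finset.sum_le_sum fun v _ => ?_
        refine mul_le_mul_of_nonneg_left ?_ (hterm0 k v)
        simp only [hf, hB]
        by_cases hb : ((v.length : ℝ) ≤ A * √n) ∧ Bad ρ W η ε (ε * √n) v
        · have hb2 : Bad ρ W η ε (ε * H) v := bad_mono (mul_le_mul_of_nonneg_left hHn hε.le) hb.2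
          rw [if_pos hb, if_pos hb2]
        · rw [if_neg hb]
          split_ifs <;> norm_num
      · refine (Finset.sum_eq_zero fun v hv => ?_).le
        have hlen : v.length = k := (mem_Lev.1 hv).1
        have hk2 : A' * H + 1 ≤ k := by simpa using hk
        have hnb : ¬ B v := by
          rintro ⟨hb, _⟩
          rw [hlen] at hb
          have h3 : (A' * H + 1 : ℝ) ≤ k := by exact_mod_cast hk2
          have h4 : A * √n ≤ A * (2 * H) := mul_le_mul_of_nonneg_left (by linarith) hA.le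
          have h5 : 2 * A * H ≤ A' * H := mul_le_mul_of_nonneg_right hA' (by positivity)
          linarith
        simp only [hf, if_neg hnb, mul_zero]
    refine h1.trans ?_
    rw [Finset.sum_ite_mem]
    refine Finset.sum_le_sum_of_subset_of_nonneg Finset.inter_subset_right fun k _ _ => ?_
    refine Finset.sum_nonneg fun v _ => mul_nonneg (hterm0 k v) ?_
    split_ifs <;> norm_num
  have hsub : {w : ℕ → List Λ | ∃ s ≤ n, ((w s).length : ℝ) ≤ A * √n ∧
      Bad ρ W η ε (ε * √n) (w s)} ⊆ ⋃ s ∈ Finset.range (n + 1), {w | B (w s)} := by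
    rintro w ⟨s, hs, hw⟩
    simp only [Finset.mem_range, Set.mem_iUnion]
    exact ⟨s, by omega, hw⟩
  refine (measure_mono hsub).trans ((measure_biUnion_finset_le _ _).trans ?_)
  set T : ℝ := ∑ k ∈ Finset.range (A' * H + 1), ∑ v ∈ Lev ch k, (ρ⁻¹) ^ k * (ρ + (ch v).card) *
      (if Bad ρ W η ε (ε * H) v then 1 else 0) with hT
  have hT0 : 0 ≤ T := by
    refine Finset.sum_nonneg fun k _ => Finset.sum_nonneg fun v _ => mul_nonneg (by positivity) ?_
    split_ifs <;> norm_num
  calc ∑ s ∈ Finset.range (n + 1), P (stp ρ ch) [] {w | B (w s)}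
      ≤ ∑ _s ∈ Finset.range (n + 1), ENNReal.ofReal T :=
        Finset.sum_le_sum fun s hs => (hE s).trans (ENNReal.ofReal_le_ofReal
          (hle s (by simpa [Nat.lt_succ_iff] using hs)))
    _ = ENNReal.ofReal (((n : ℝ) + 1) * T) := by
        rw [Finset.sum_const, Finset.card_range, nsmul_eq_mul, ENNReal.ofReal_mul (by positivity)]
        congr 1
        rw [ENNReal.ofReal_add (by positivity) (by norm_num), ENNReal.ofReal_natCast,
          ENNReal.ofReal_one]
        push_cast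
        rfl
    _ ≤ ENNReal.ofReal (4 * G H) := by
        refine ENNReal.ofReal_le_ofReal ?_
        have h1 : ((n : ℝ) + 1) * T ≤ (4 * (H : ℝ) ^ 2) * T := by
          refine mul_le_mul_of_nonneg_right ?_ hT0
          nlinarith
        calc ((n : ℝ) + 1) * T ≤ (4 * (H : ℝ) ^ 2) * T := h1
          _ = 4 * G H := by simp only [hG, hT]; ring

end Pool.Agent.H100
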