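import Mathlib
import Pool.Agent.H812.Gi.Spec

/-!
# Chains of transports between stages
-/

set_option autoImplicit false

open Real Filter Topology Set MeasureTheory
open scoped ContDiff ENNReal

namespace Pool.Agent.H100.Gi

open Pool.Agent.W811.Stu Pool.Agent.H812.Tm Pool.Agent.W811.Dos Pool.Agent.H812.Gi

/-! ### transitivity and shift -/

theorem Tr.trans {d : ℕ → ℕ} {c c' c'' : ℝ → P3} {s0 t0 u0 : ℝ} (h1 : Tr d c s0 c' t0)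
    (h2 : Tr d c' t0 c'' u0) : Tr d c s0 c'' u0 := by
  obtain ⟨C1, hC1, h1⟩ := h1
  obtain ⟨C2, hC2, h2⟩ := h2
  refine ⟨C1 * C2, mul_pos hC1 hC2, fun ε hε => ?_⟩
  obtain ⟨η2, hη2, M2, h2⟩ := h2 ε hε
  obtain ⟨η1, hη1, M1, h1⟩ := h1 η2 hη2
  refine ⟨η1, hη1, max M1 M2, fun M hM => ?_⟩
  obtain ⟨f1, h1⟩ := h1 M (le_trans (le_max_left _ _) hM)
  obtain ⟨f2, h2⟩ := h2 M (le_trans (le_max_right _ _) hM)
  refine ⟨fun s => f2 (f1 s), fun s hs hz => ?_⟩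
  obtain ⟨a1, a2, a3⟩ := h1 s hs hz
  obtain ⟨b1, b2, b3⟩ := h2 (f1 s) a1 a2
  refine ⟨b1, b2, fun s' hs' hz' => ?_⟩
  obtain ⟨a1', a2', -⟩ := h1 s' hs' hz'
  have e1 := a3 s' hs' hz'
  have e2 := b3 (f1 s') a1' a2'
  calc |s - s'| ≤ C1 * |f1 s - f1 s'| := e1
    _ ≤ C1 * (C2 * |f2 (f1 s) - f2 (f1 s')|) := mul_le_mul_of_nonneg_left e2 hC1.le
    _ = C1 * C2 * |f2 (f1 s) - f2 (f1 s')| := by ring

theorem ZM_shift {d : ℕ → ℕ} (n M : ℕ) (c : ℝ → P3) (s : ℝ) :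
    ZM d (n + M) (fun s => borb d n (c s)) s ↔ ZM (shd d n) M c s := by
  unfold ZM
  rw [orb_add, orb_borb]
  rfl

theorem Tr.shift {d : ℕ → ℕ} {c c' : ℝ → P3} {s0 t0 : ℝ} (n : ℕ) (h : Tr (shd d n) c s0 c' t0) :
    Tr d (fun s => borb d n (c s)) s0 (fun s => borb d n (c' s)) t0 := by
  obtain ⟨C, hC, h⟩ := h
  refine ⟨C, hC, fun ε hε => ?_⟩
  obtain ⟨η, hη, M0, h⟩ := h ε hε
  refine ⟨η, hη, n + M0, fun M hM => ?_⟩
  obtain ⟨k, rfl⟩ := Nat.exists_eq_add_of_le (show n ≤ M by omega)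
  obtain ⟨f, h⟩ := h k (by omega)
  refine ⟨f, fun s hs hz => ?_⟩
  obtain ⟨a1, a2, a3⟩ := h s hs ((ZM_shift n k c s).1 hz)
  exact ⟨a1, (ZM_shift n k c' _).2 a2, fun s' hs' hz' => a3 s' hs' ((ZM_shift n k c s').1 hz')⟩

theorem Tr.unshift {d : ℕ → ℕ} {c c' : ℝ → P3} {s0 t0 : ℝ} (n : ℕ)
    (h : Tr d (fun s => borb d n (c s)) s0 (fun s => borb d n (c' s)) t0) :
    Tr (shd d n) c s0 c' t0 := by
  obtain ⟨C, hC, h⟩ := h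
  refine ⟨C, hC, fun ε hε => ?_⟩
  obtain ⟨η, hη, M0, h⟩ := h ε hε
  refine ⟨η, hη, M0, fun M hM => ?_⟩
  obtain ⟨f, h⟩ := h (n + M) (by omega)
  refine ⟨f, fun s hs hz => ?_⟩
  obtain ⟨a1, a2, a3⟩ := h s hs ((ZM_shift n M c s).2 hz)
  exact ⟨a1, (ZM_shift n M c' _).1 a2, fun s' hs' hz' => a3 s' hs' ((ZM_shift n M c s').2 hz')⟩

/-- `Tr (shd d n) .. ↔ Tr d (borb d n ..)` -/
theorem Tr_shift_iff {d : ℕ → ℕ} {c c' : ℝ → P3} {s0 t0 : ℝ} (n : ℕ) :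
    Tr (shd d n) c s0 c' t0 ↔ Tr d (fun s => borb d n (c s)) s0 (fun s => borb d n (c' s)) t0 :=
  ⟨Tr.shift n, Tr.unshift n⟩

/-! ### the points of the stages -/

lemma Cx.shift {δ κ : ℝ} {θ : ℝ → ℝ} {d : ℕ → ℕ} (h : Cx δ κ θ d) (n : ℕ) : Cx δ κ θ (shd d n) :=
  ⟨h.hδ, h.hκ1, h.hκ, h.hθ, fun _ => h.hd _⟩

lemma shd_zero (d : ℕ → ℕ) : shd d 0 = d := by
  funext k; unfold shd; rw [zero_add]

/-- the point with alive coordinates of stage `m` is in the stable set -/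
lemma mem_WS_borb (hE : SEsc) {δ : ℝ} (hδ : δ ≠ 0) {d : ℕ → ℕ} (hd : ∀ k, 1 ≤ d k) (m : ℕ)
    {p : P3} (hp : OnS δ p) (hz : |p.z| ≤ 1) (ha : Alive (shd d m) p) :
    tp (borb d m p) ∈ WS δ d := by
  refine mem_WS_of_alive hE hδ hd (q := tp (borb d m p)) ?_ m ?_ ?_
  · have := FS_go δ d m (tp p)
    unfold go at this
    rw [pt_tp] at this
    rw [this]
    exact FS_tp.2 hp
  · rw [pt_tp, orb_borb]; exact hz
  · rw [pt_tp, orb_borb]; exact ha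

/-- a point of the stable set with `|z_n| < 1` has coordinates of stage `n` -/
lemma exists_At (hC : SCoord) (hE : SEsc) {δ : ℝ} (hδ : δ ≠ 0) {d : ℕ → ℕ} (hd : ∀ k, 1 ≤ d k)
    {q : P3} (hq : tp q ∈ WS δ d) (n : ℕ) (hz : |(orb d q n).z| < 1) :
    ∃ w, At δ d n w ∧ orb d q n = ze δ w := by
  have hS : OnS δ (orb d q n) := by
    rw [← FS_tp, FS_orb]
    exact hq.1
  obtain ⟨ϑ, hϑ⟩ := (hC δ).2.1 (orb d q n) hS hz
  refine ⟨((orb d q n).z, ϑ), ⟨hz, ?_⟩, hϑ.symm⟩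
  rw [hϑ]
  have := alive_of_mem_WS hE hδ hd hq n (by rw [pt_tp]; exact hz.le)
  rw [pt_tp] at this
  exact this

lemma At.OnS (hC : SCoord) {δ : ℝ} {d : ℕ → ℕ} {n : ℕ} {v : ℝ × ℝ} (h : At δ d n v) :
    OnS δ (ze δ v) := (hC δ).1 v h.1

lemma At.mem_WS (hC : SCoord) (hE : SEsc) {δ : ℝ} (hδ : δ ≠ 0) {d : ℕ → ℕ} (hd : ∀ k, 1 ≤ d k)
    {n : ℕ} {v : ℝ × ℝ} (h : At δ d n v) : tp (borb d n (ze δ v)) ∈ WS δ d :=
  mem_WS_borb hE hδ hd n ((hC δ).1 v h.1) (le_of_lt h.1) h.2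

/-- vertical curves are smooth -/
lemma vc_smoothAt (hC : SCoord) (δ : ℝ) (d : ℕ → ℕ) (n : ℕ) {v : ℝ × ℝ} (hv : v ∈ U) (t : ℝ) :
    ContDiffAt ℝ 1 (fun s => tp (vc δ d n v s)) t := by
  have h1 : ContDiffAt ℝ ∞ (zh δ) (v.1, t) := zh_smoothAt hC δ (v := (v.1, t)) hv
  have h2 : ContDiffAt ℝ ∞ (fun s : ℝ => (v.1, s)) t := contDiffAt_const.prodMk contDiffAt_id
  have h3 : ContDiffAt ℝ ∞ (fun s : ℝ => zh δ (v.1, s)) t := ContDiffAt.comp (g := zh δ) t h1 h2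
  have h4 : ContDiffAt ℝ ∞ (fun s : ℝ => go d n (zh δ (v.1, s))) t :=
    ContDiffAt.comp (g := go d n) t (go_smooth d n).contDiffAt h3
  exact h4.of_le (by norm_num)

lemma vc_OnS (hC : SCoord) (δ : ℝ) (d : ℕ → ℕ) (n : ℕ) {v : ℝ × ℝ} (hv : v ∈ U) (t : ℝ) :
    OnS δ (vc δ d n v t) := by
  rw [← FS_tp]
  have := FS_go δ d n (tp (ze δ (v.1, t)))
  unfold go at this
  rw [pt_tp] at this
  have h2 : tp (vc δ d n v t) = tp (borb d n (ze δ (v.1, t))) := rfl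
  rw [h2, this]
  exact FS_tp.2 ((hC δ).1 (v.1, t) hv)

/-- change of the stage -/
lemma change (hC : SCoord) (hE : SEsc) (hSw : GSw) (hUnb : GUnb) {δ κ : ℝ} {θ : ℝ → ℝ}
    {d : ℕ → ℕ} (hx : Cx δ κ θ d) {m n : ℕ} {u : ℝ × ℝ} (hu : At δ d m u)
    (hz : |(orb d (borb d m (ze δ u)) n).z| < 1) :
    ∃ w, At δ d n w ∧ Tr d (vc δ d m u) u.2 (vc δ d n w) w.2 := by
  obtain ⟨w, hw, he⟩ := exists_At hC hE hx.hδ hx.hd (At.mem_WS hC hE hx.hδ hx.hd hu) n hz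
  refine ⟨w, hw, ?_⟩
  exact (hSw δ κ θ d hx n w (vc δ d m u) u.2 hw (vc_smoothAt hC δ d m hu.1 u.2)
    (Eventually.of_forall fun s => vc_OnS hC δ d m hu.1 s) he
    ((hUnb δ d hx.hδ hx.hd).1 m u hu)).1

/-- slide along the leaf to another point -/
lemma slide (hSl : GSlide) {δ κ : ℝ} {θ : ℝ → ℝ} {d : ℕ → ℕ} (hx : Cx δ κ θ d) {n : ℕ}
    {v : ℝ × ℝ} (hv : v ∈ U) {ψ : ℝ → ℝ} (hψ : Leaf θ δ (shd d n) ψ) (h0 : ψ v.1 = v.2) {z : ℝ}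
    (hz : |z| < 1) :
    At δ d n (z, ψ z) ∧ Tr d (vc δ d n v) v.2 (vc δ d n (z, ψ z)) (z, ψ z).2 := by
  refine ⟨⟨hz, (hψ z hz).2⟩, ?_⟩
  have h := hSl δ κ θ d hx n ψ hψ v.1 z hv hz
  rw [h0] at h
  exact h

/-- from stage one to stage zero -/
lemma down0 (hCa : GCa) (hCb : GCb) (hSl : GSlide) (hSw : GSw) (hUnb : GUnb) (hLeaf : SLeaf)
    (hE : SEsc) (hC : SCoord) {δ κ : ℝ} {θ : ℝ → ℝ} {d : ℕ → ℕ} (hx : Cx δ κ θ d) {v : ℝ × ℝ}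
    (hv : At δ d 1 v) : ∃ w, At δ d 0 w ∧ Tr d (vc δ d 1 v) v.2 (vc δ d 0 w) w.2 := by
  obtain ⟨ψ, hψ0, hψ⟩ := hLeaf δ κ (shd d 1) θ hx.hδ hx.hκ1 hx.hκ (fun k => hx.hd _) hx.hθ v hv.1
    hv.2
  rcases hCa δ κ θ d hx ψ hψ with ⟨z, hz, hz0⟩ | ⟨hd0, z, hz, hz0⟩
  · obtain ⟨hA, hT⟩ := slide hSl hx hv.1 hψ hψ0 hz
    obtain ⟨w, hw, hT2⟩ := change hC hE hSw hUnb hx (n := 0) hA hz0
    exact ⟨w, hw, Tr.trans hT hT2⟩
  · obtain ⟨hA, hT⟩ := slide hSl hx hv.1 hψ hψ0 hz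
    have hz2 : |(orb d (borb d 1 (ze δ (z, ψ z))) 2).z| < 1 := by
      have e1 : (orb d (borb d 1 (ze δ (z, ψ z))) 2).z =
          (orb d (borb d 1 (ze δ (z, ψ z))) 1).y := orb_succ_z _ _ _
      rw [e1, orb_borb]
      exact hz0
    obtain ⟨w2, hw2, hT2⟩ := change hC hE hSw hUnb hx (n := 2) hA hz2
    obtain ⟨ψ2, hψ20, hψ2⟩ := hLeaf δ κ (shd d 2) θ hx.hδ hx.hκ1 hx.hκ (fun k => hx.hd _) hx.hθ
      w2 hw2.1 hw2.2
    obtain ⟨z', hz', hz0'⟩ := hCb δ κ θ d hx hd0 ψ2 hψ2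
    obtain ⟨hA', hT3⟩ := slide hSl hx hw2.1 hψ2 hψ20 hz'
    have hz0'' : |(orb d (borb d 2 (ze δ (z', ψ2 z'))) 0).z| < 1 := by
      have e1 : (orb d (borb d 2 (ze δ (z', ψ2 z'))) 0).z = 0 := hz0'
      rw [e1]; norm_num
    obtain ⟨w, hw, hT4⟩ := change hC hE hSw hUnb hx (n := 0) hA' hz0''
    exact ⟨w, hw, Tr.trans (Tr.trans hT hT2) (Tr.trans hT3 hT4)⟩

theorem tGDown (hCa : GCa) (hCb : GCb) (hSl : GSlide) (hSw : GSw) (hUnb : GUnb) (hLeaf : SLeaf)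
    (hE : SEsc) (hC : SCoord) : GDown := by
  intro δ κ θ d hx n v hv
  have hv' : At δ (shd d n) 1 v := by
    refine ⟨hv.1, ?_⟩
    rw [shd_shd]; exact hv.2
  obtain ⟨w, hw, hT⟩ := down0 hCa hCb hSl hSw hUnb hLeaf hE hC (Cx.shift hx n) hv'
  refine ⟨w, ⟨hw.1, ?_⟩, ?_⟩
  · have := hw.2
    rw [shd_shd, add_zero] at this
    exact this
  · exact Tr.shift n hT

/-- from stage `n + k` to stage `n` -/
lemma downs (hDown : GDown) {δ κ : ℝ} {θ : ℝ → ℝ} {d : ℕ → ℕ} (hx : Cx δ κ θ d) (n k : ℕ)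
    {v : ℝ × ℝ} (hv : At δ d (n + k) v) :
    ∃ w, At δ d n w ∧ (k = 0 ∧ w = v ∨ Tr d (vc δ d (n + k) v) v.2 (vc δ d n w) w.2) := by
  induction k generalizing v with
  | zero => exact ⟨v, hv, Or.inl ⟨rfl, rfl⟩⟩
  | succ k ih =>
    obtain ⟨u, hu, hT⟩ := hDown δ κ θ d hx (n + k) v hv
    obtain ⟨w, hw, h⟩ := ih hu
    refine ⟨w, hw, Or.inr ?_⟩
    rcases h with ⟨rfl, rfl⟩ | h
    · exact hT
    · exact Tr.trans hT h

lemma lin_OnS (δ E : ℝ) : OnS δ (lin (2 * δ) E) := by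
  unfold OnS lin
  simp only
  ring

lemma lin_smoothAt (δ : ℝ) (d : ℕ → ℕ) (n : ℕ) (E : ℝ) :
    ContDiffAt ℝ 1 (fun s => tp (borb d n (lin (2 * δ) s))) E := by
  have h1 : ContDiffAt ℝ ∞ (fun s : ℝ => tp (lin (2 * δ) s)) E := by
    unfold tp lin
    simp only
    fun_prop
  have h2 : ContDiffAt ℝ ∞ (fun s : ℝ => go d n (tp (lin (2 * δ) s))) E :=
    ContDiffAt.comp (g := go d n) E (go_smooth d n).contDiffAt h1
  exact h2.of_le (by norm_num)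

lemma borb_lin_OnS (δ : ℝ) (d : ℕ → ℕ) (n : ℕ) (E : ℝ) : OnS δ (borb d n (lin (2 * δ) E)) := by
  rw [← FS_tp]
  have := FS_go δ d n (tp (lin (2 * δ) E))
  unfold go at this
  rw [pt_tp] at this
  rw [this]
  exact FS_tp.2 (lin_OnS δ E)

/-- change from the starting line of stage `m` to a vertical curve of a later stage -/
lemma changeLin (hC : SCoord) (hE : SEsc) (hSw : GSw) (hUnb : GUnb) {δ κ : ℝ} {θ : ℝ → ℝ}
    {d : ℕ → ℕ} (hx : Cx δ κ θ d) (m : ℕ) {E : ℝ} (ha : Alive (shd d m) (lin (2 * δ) E)) :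
    ∃ n w, At δ d (m + 1 + n) w ∧
      Tr d (fun s => borb d m (lin (2 * δ) s)) E (vc δ d (m + 1 + n) w) w.2 := by
  have hd' : ∀ k, 1 ≤ shd d m k := fun k => hx.hd _
  have hz1 : |(lin (2 * δ) E).z| ≤ 1 := by
    have : (lin (2 * δ) E).z = 1 := rfl
    rw [this, abs_one]
  have hWS : tp (borb d m (lin (2 * δ) E)) ∈ WS δ d :=
    mem_WS_borb hE hx.hδ hx.hd m (lin_OnS δ E) hz1 ha
  have hWS' : tp (lin (2 * δ) E) ∈ WS δ (shd d m) := by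
    have := mem_WS_borb hE hx.hδ hd' 0 (p := lin (2 * δ) E) (lin_OnS δ E) hz1
      (by rw [shd_zero]; exact ha)
    exact this
  obtain ⟨k, hk⟩ := exists_strip hE hx.hδ hd' hWS'
  rw [pt_tp] at hk
  have hk0 : k ≠ 0 := by
    rintro rfl
    have : (orb (shd d m) (lin (2 * δ) E) 0).z = 1 := rfl
    rw [this, abs_one] at hk
    exact lt_irrefl _ hk
  obtain ⟨n, rfl⟩ := Nat.exists_eq_succ_of_ne_zero hk0
  have hk' : |(orb d (borb d m (lin (2 * δ) E)) (m + 1 + n)).z| < 1 := by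
    have e : m + 1 + n = m + (n + 1) := by ring
    rw [e, orb_add, orb_borb]
    exact hk
  obtain ⟨w, hw, he⟩ := exists_At hC hE hx.hδ hx.hd hWS (m + 1 + n) hk'
  refine ⟨n, w, hw, ?_⟩
  exact (hSw δ κ θ d hx (m + 1 + n) w (fun s => borb d m (lin (2 * δ) s)) E hw
    (lin_smoothAt δ d m E) (Eventually.of_forall fun s => borb_lin_OnS δ d m s) he
    ((hUnb δ d hx.hδ hx.hd).2 m E ha)).1

theorem tGRel (hDown : GDown) (hEnd : GEnd) (hSw : GSw) (hUnb : GUnb) (hE : SEsc) (hC : SCoord) :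
    GRel := by
  intro δ κ θ d hx
  constructor
  · intro E ha
    obtain ⟨n, w, hw, hT⟩ := changeLin hC hE hSw hUnb hx 0 (E := E) (by rw [shd_zero]; exact ha)
    have hT' : Tr d (lin (2 * δ)) E (vc δ d (0 + 1 + n) w) w.2 := hT
    obtain ⟨w1, hw1, h⟩ := downs hDown hx (0 + 1) n hw
    obtain ⟨E', hE'⟩ := hEnd δ κ θ d hx 1 w1 hw1
    refine ⟨E', ?_⟩
    rcases h with ⟨rfl, rfl⟩ | h
    · exact Tr.trans hT' hE'
    · exact Tr.trans (Tr.trans hT' h) hE'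
  · intro E ha
    obtain ⟨n, w, hw, hT⟩ := changeLin hC hE hSw hUnb hx 1 (E := E) ha
    have e : 1 + 1 + n = 0 + (1 + 1 + n) := by ring
    rw [e] at hw hT
    obtain ⟨w0, hw0, h⟩ := downs hDown hx 0 (1 + 1 + n) hw
    obtain ⟨E', hE'⟩ := hEnd δ κ θ d hx 0 w0 hw0
    have hE'' : Tr d (vc δ d 0 w0) w0.2 (lin (2 * δ)) E' := hE'
    refine ⟨E', ?_⟩
    rcases h with ⟨h0, -⟩ | h
    · omega
    · exact Tr.trans (Tr.trans hT h) hE''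

end Pool.Agent.H100.Gi
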