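import Mathlib
import Pool.Agent.H576.RD.Stm

/-!
# Project RD: T5a, T5b (helper100, for helper576)

No rotations of order `≥ 7`, no rotoreflection of order `12`.
-/

set_option autoImplicit false

open Real

namespace Pool.Agent.H100

open Pool.Agent.H576.RD

namespace RDT5

lemma nsq (v : E) : ‖v‖ ^ 2 = v 0 ^ 2 + v 1 ^ 2 + v 2 ^ 2 := by
  rw [EuclideanSpace.real_norm_sq_eq, Fin.sum_univ_three]

lemma rot0 (θ : ℝ) (v : E) : rotE θ v 0 = cos θ * v 0 - sin θ * v 1 := rfl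
lemma rot1 (θ : ℝ) (v : E) : rotE θ v 1 = sin θ * v 0 + cos θ * v 1 := rfl
lemma rot2 (θ : ℝ) (v : E) : rotE θ v 2 = v 2 := rfl
lemma rr0 (θ : ℝ) (v : E) : rrE θ v 0 = cos θ * v 0 - sin θ * v 1 := rfl
lemma rr1 (θ : ℝ) (v : E) : rrE θ v 1 = sin θ * v 0 + cos θ * v 1 := rfl
lemma rr2 (θ : ℝ) (v : E) : rrE θ v 2 = -(v 2) := rfl

lemma ext3 {v w : E} (h0 : v 0 = w 0) (h1 : v 1 = w 1) (h2 : v 2 = w 2) : v = w := by
  ext i
  fin_cases i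
  · exact h0
  · exact h1
  · exact h2

lemma norm_rot (θ : ℝ) (v : E) : ‖rotE θ v‖ = ‖v‖ := by
  have h : ‖rotE θ v‖ ^ 2 = ‖v‖ ^ 2 := by
    rw [nsq, nsq, rot0, rot1, rot2]
    have := sin_sq_add_cos_sq θ
    linear_combination (v 0 ^ 2 + v 1 ^ 2) * this
  exact (pow_left_inj₀ (norm_nonneg _) (norm_nonneg _) two_ne_zero).1 h

lemma norm_rr (θ : ℝ) (v : E) : ‖rrE θ v‖ = ‖v‖ := by
  have h : ‖rrE θ v‖ ^ 2 = ‖v‖ ^ 2 := by
    rw [nsq, nsq, rr0, rr1, rr2]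
    have := sin_sq_add_cos_sq θ
    linear_combination (v 0 ^ 2 + v 1 ^ 2) * this
  exact (pow_left_inj₀ (norm_nonneg _) (norm_nonneg _) two_ne_zero).1 h

lemma rot_neg (θ : ℝ) (v : E) : rotE θ (rotE (-θ) v) = v := by
  have hs := sin_sq_add_cos_sq θ
  apply ext3
  · rw [rot0, rot0, rot1, cos_neg, sin_neg]
    linear_combination (v 0) * hs
  · rw [rot1, rot0, rot1, cos_neg, sin_neg]
    linear_combination (v 1) * hs
  · rw [rot2, rot2]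

lemma rr_neg (θ : ℝ) (v : E) : rrE θ (rrE (-θ) v) = v := by
  have hs := sin_sq_add_cos_sq θ
  apply ext3
  · rw [rr0, rr0, rr1, cos_neg, sin_neg]
    linear_combination (v 0) * hs
  · rw [rr1, rr0, rr1, cos_neg, sin_neg]
    linear_combination (v 1) * hs
  · rw [rr2, rr2, neg_neg]

lemma rr_rr (θ : ℝ) (v : E) : rrE θ (rrE θ v) = rotE (2 * θ) v := by
  have hs := sin_sq_add_cos_sq θ
  have hc : cos (2 * θ) = cos θ ^ 2 - sin θ ^ 2 := by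
    rw [cos_two_mul]; linarith
  apply ext3
  · rw [rr0, rr0, rr1, rot0, hc, sin_two_mul]
    ring
  · rw [rr1, rr0, rr1, rot1, hc, sin_two_mul]
    ring
  · rw [rr2, rr2, rot2, neg_neg]

lemma dist_rot (θ : ℝ) (v : E) : ‖rotE θ v - v‖ ^ 2 = (2 - 2 * cos θ) * (v 0 ^ 2 + v 1 ^ 2) := by
  rw [nsq]
  have e0 : (rotE θ v - v) 0 = rotE θ v 0 - v 0 := rfl
  have e1 : (rotE θ v - v) 1 = rotE θ v 1 - v 1 := rfl
  have e2 : (rotE θ v - v) 2 = rotE θ v 2 - v 2 := rfl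
  rw [e0, e1, e2, rot0, rot1, rot2]
  have := sin_sq_add_cos_sq θ
  linear_combination (v 0 ^ 2 + v 1 ^ 2) * this

lemma dist_rr (θ : ℝ) (v : E) :
    ‖rrE θ v - v‖ ^ 2 = (2 - 2 * cos θ) * (v 0 ^ 2 + v 1 ^ 2) + 4 * v 2 ^ 2 := by
  rw [nsq]
  have e0 : (rrE θ v - v) 0 = rrE θ v 0 - v 0 := rfl
  have e1 : (rrE θ v - v) 1 = rrE θ v 1 - v 1 := rfl
  have e2 : (rrE θ v - v) 2 = rrE θ v 2 - v 2 := rfl
  rw [e0, e1, e2, rr0, rr1, rr2]
  have := sin_sq_add_cos_sq θ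
  linear_combination (v 0 ^ 2 + v 1 ^ 2) * this

lemma ne_of_sin {θ : ℝ} (hθ : sin θ ≠ 0) {v : E} (hv : Off v)
    (h0 : cos θ * v 0 - sin θ * v 1 = cos (-θ) * v 0 - sin (-θ) * v 1)
    (h1 : sin θ * v 0 + cos θ * v 1 = sin (-θ) * v 0 + cos (-θ) * v 1) : False := by
  rw [cos_neg, sin_neg] at h0 h1
  have e0 : sin θ * v 1 = 0 := by linarith
  have e1 : sin θ * v 0 = 0 := by linarith
  rcases mul_eq_zero.1 e0 with h | h
  · exact hθ h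
  · rcases mul_eq_zero.1 e1 with h' | h'
    · exact hθ h'
    · rcases hv with h2 | h2
      · exact h2 h'
      · exact h2 h

lemma rot_ne {θ : ℝ} (hθ : sin θ ≠ 0) {v : E} (hv : Off v) : rotE θ v ≠ rotE (-θ) v := by
  intro h
  have h0 : rotE θ v 0 = rotE (-θ) v 0 := by rw [h]
  have h1 : rotE θ v 1 = rotE (-θ) v 1 := by rw [h]
  rw [rot0, rot0] at h0
  rw [rot1, rot1] at h1
  exact ne_of_sin hθ hv h0 h1

lemma rr_ne {θ : ℝ} (hθ : sin θ ≠ 0) {v : E} (hv : Off v) : rrE θ v ≠ rrE (-θ) v := by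
  intro h
  have h0 : rrE θ v 0 = rrE (-θ) v 0 := by rw [h]
  have h1 : rrE θ v 1 = rrE (-θ) v 1 := by rw [h]
  rw [rr0, rr0] at h0
  rw [rr1, rr1] at h1
  exact ne_of_sin hθ hv h0 h1

lemma off_pos {v : E} (hv : Off v) : 0 < v 0 ^ 2 + v 1 ^ 2 := by
  rcases hv with h | h
  · have := sq_pos_of_ne_zero h
    have := sq_nonneg (v 1)
    linarith
  · have := sq_pos_of_ne_zero h
    have := sq_nonneg (v 0)
    linarith

/-- A shortest vector off the axis. -/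
lemma exists_min (h1 : S_FINK) {r : ℝ} {X : Set E} {ρ : ℝ} (hD : Del r X)
    (hex : ∃ v ∈ X, ‖v‖ ≤ ρ ∧ Off v) :
    ∃ v ∈ X, ‖v‖ ≤ ρ ∧ Off v ∧ ∀ w ∈ X, ‖w‖ ≤ ρ → Off w → ‖v‖ ≤ ‖w‖ := by
  have hfin : {v : E | v ∈ X ∧ ‖v‖ ≤ ρ ∧ Off v}.Finite := by
    apply (h1 r X 0 ρ hD).subset
    rintro v ⟨hv1, hv2, -⟩
    refine ⟨hv2, ?_⟩
    rw [zero_add]
    exact hv1
  obtain ⟨v0, hv0⟩ := hex
  obtain ⟨v, hv, hmin⟩ := Set.exists_min_image _ (fun v : E => ‖v‖) hfin ⟨v0, hv0⟩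
  exact ⟨v, hv.1, hv.2.1, hv.2.2, fun w h1 h2 h3 => hmin w ⟨h1, h2, h3⟩⟩

end RDT5

open RDT5

theorem rd_t5a (h1 : S_FINK) (h2 : S_LP) : S_T5a := by
  intro r X ρ n hD hN h0 hn hS hex
  obtain ⟨v, hvX, hvρ, hoff, hmin⟩ := exists_min h1 hD hex
  set θ : ℝ := 2 * π / n with hθ
  have hn' : (7 : ℝ) ≤ n := by exact_mod_cast hn
  have hn0 : (0 : ℝ) < n := by linarith
  have hθ0 : 0 < θ := by
    rw [hθ]
    have := pi_pos
    positivity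
  have hθ3 : θ < π / 3 := by
    rw [hθ, div_lt_div_iff₀ hn0 (by norm_num)]
    have := pi_pos
    nlinarith
  have hsin : sin θ ≠ 0 := (sin_pos_of_pos_of_lt_pi hθ0 (by linarith [pi_pos])).ne'
  have hcos : 1 / 2 < cos θ := by
    rw [← cos_pi_div_three]
    exact cos_lt_cos_of_nonneg_of_le_pi hθ0.le (by linarith [pi_pos]) hθ3
  have hpX : rotE θ v ∈ X := (hS v hvρ).1 hvX
  have hqX : rotE (-θ) v ∈ X := by
    apply (hS (rotE (-θ) v) (by rw [norm_rot]; exact hvρ)).2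
    rw [rot_neg]
    exact hvX
  have hpq : ‖rotE θ v - v‖ = ‖rotE (-θ) v - v‖ := by
    have : ‖rotE θ v - v‖ ^ 2 = ‖rotE (-θ) v - v‖ ^ 2 := by
      rw [dist_rot, dist_rot, cos_neg]
    exact (pow_left_inj₀ (norm_nonneg _) (norm_nonneg _) two_ne_zero).1 this
  have hlt : ‖rotE θ v - v‖ < ‖v‖ := by
    apply lt_of_pow_lt_pow_left₀ 2 (norm_nonneg _)
    rw [dist_rot, nsq]
    have e1 := off_pos hoff
    have e2 := sq_nonneg (v 2)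
    nlinarith
  have := h2 X ρ ‖v‖ hN h0 hmin v (rotE θ v) (rotE (-θ) v) hvX hpX hqX (norm_rot _ _)
    (norm_rot _ _) hpq (hlt.le.trans hvρ) (rot_ne hsin hoff)
  linarith

theorem rd_t5b (h1 : S_FINK) (h2 : S_LP) : S_T5b := by
  intro r X ρ hD hN h0 hS hex
  obtain ⟨v, hvX, hvρ, hoff, hmin⟩ := exists_min h1 hD hex
  have hS' : ∀ w : E, ‖w‖ ≤ ρ → w ∈ X → rrE (-(π / 6)) w ∈ X := by
    intro w hw hwX
    apply (hS (rrE (-(π / 6)) w) (by rw [norm_rr]; exact hw)).2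
    rw [rr_neg]
    exact hwX
  have h2π : 2 * (π / 6) = π / 3 := by ring
  have h2π' : 2 * (-(π / 6)) = -(π / 3) := by ring
  -- the rotation by 60 degrees
  have hpX : rotE (π / 3) v ∈ X := by
    have h3 := (hS _ (by rw [norm_rr]; exact hvρ)).1 ((hS v hvρ).1 hvX)
    rw [rr_rr, h2π] at h3
    exact h3
  have hqX : rotE (-(π / 3)) v ∈ X := by
    have h3 := hS' _ (by rw [norm_rr]; exact hvρ) (hS' v hvρ hvX)
    rw [rr_rr, h2π'] at h3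
    exact h3
  have hd1 : ‖rotE (π / 3) v - v‖ ^ 2 = v 0 ^ 2 + v 1 ^ 2 := by
    rw [dist_rot, cos_pi_div_three]; ring
  have hd2 : ‖rotE (-(π / 3)) v - v‖ ^ 2 = v 0 ^ 2 + v 1 ^ 2 := by
    rw [dist_rot, cos_neg, cos_pi_div_three]; ring
  have hpq : ‖rotE (π / 3) v - v‖ = ‖rotE (-(π / 3)) v - v‖ :=
    (pow_left_inj₀ (norm_nonneg _) (norm_nonneg _) two_ne_zero).1 (by rw [hd1, hd2])
  have hle : ‖rotE (π / 3) v - v‖ ≤ ‖v‖ := by
    apply (pow_le_pow_iff_left₀ (norm_nonneg _) (norm_nonneg _) two_ne_zero).1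
    rw [hd1, nsq]
    have := sq_nonneg (v 2)
    linarith
  have hs3 : sin (π / 3) ≠ 0 :=
    (sin_pos_of_pos_of_lt_pi (by linarith [pi_pos]) (by linarith [pi_pos])).ne'
  have k1 := h2 X ρ ‖v‖ hN h0 hmin v _ _ hvX hpX hqX (norm_rot _ _) (norm_rot _ _) hpq
    (hle.trans hvρ) (rot_ne hs3 hoff)
  have hv2 : v 2 ^ 2 = 0 := by
    have e1 : ‖v‖ ^ 2 ≤ ‖rotE (π / 3) v - v‖ ^ 2 := pow_le_pow_left₀ (norm_nonneg _) k1 2
    rw [hd1, nsq] at e1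
    have := sq_nonneg (v 2)
    linarith
  -- the rotoreflection
  have hgX : rrE (π / 6) v ∈ X := (hS v hvρ).1 hvX
  have hg'X : rrE (-(π / 6)) v ∈ X := hS' v hvρ hvX
  have hd3 : ‖rrE (π / 6) v - v‖ ^ 2 = (2 - √3) * (v 0 ^ 2 + v 1 ^ 2) := by
    rw [dist_rr, cos_pi_div_six, hv2]; ring
  have hd4 : ‖rrE (-(π / 6)) v - v‖ ^ 2 = (2 - √3) * (v 0 ^ 2 + v 1 ^ 2) := by
    rw [dist_rr, cos_neg, cos_pi_div_six, hv2]; ring
  have hpq' : ‖rrE (π / 6) v - v‖ = ‖rrE (-(π / 6)) v - v‖ :=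
    (pow_left_inj₀ (norm_nonneg _) (norm_nonneg _) two_ne_zero).1 (by rw [hd3, hd4])
  have hs1 : 1 < √3 := by
    rw [Real.lt_sqrt (by norm_num)]
    norm_num
  have hlt : ‖rrE (π / 6) v - v‖ < ‖v‖ := by
    apply lt_of_pow_lt_pow_left₀ 2 (norm_nonneg _)
    rw [hd3, nsq, hv2]
    have e1 := off_pos hoff
    nlinarith
  have hs6 : sin (π / 6) ≠ 0 := by
    rw [sin_pi_div_six]; norm_num
  have := h2 X ρ ‖v‖ hN h0 hmin v _ _ hvX hgX hg'X (norm_rr _ _) (norm_rr _ _) hpq'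
    (hlt.le.trans hvρ) (rr_ne hs6 hoff)
  linarith

end Pool.Agent.H100
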