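import Pool.Agent.H770.SN.Stm

set_option autoImplicit false

open MeasureTheory Set Function
open scoped ENNReal

namespace Pool.Agent.H100.SN10

open Pool.Agent.H770.SN

/-- the identification -/
noncomputable def j (n : ℕ) : (Fin n → ℝ) ≃ᵐ EuclideanSpace ℝ (Fin n) := MeasurableEquiv.toLp 2 (Fin n → ℝ)

theorem j_apply (n : ℕ) (x : Fin n → ℝ) : j n x = WithLp.toLp 2 x := rfl

theorem vol (n : ℕ) (A : Set (EuclideanSpace ℝ (Fin n))) :
    volume ((fun x : Fin n → ℝ => (WithLp.toLp 2 x : EuclideanSpace ℝ (Fin n))) ⁻¹' A) = volume A :=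
  MeasurePreserving.measure_preimage_equiv (f := j n)
    (EuclideanSpace.volume_preserving_symm_measurableEquiv_toLp (Fin n)).symm A

theorem t_euc : S_euc := by
  intro h n K T hK hKs hT hTc hTu
  have hcont : Continuous (fun x : EuclideanSpace ℝ (Fin n) => (fun i => x i : Fin n → ℝ)) := by
    fun_prop
  have hKpre : (fun x : Fin n → ℝ => (WithLp.toLp 2 x : EuclideanSpace ℝ (Fin n))) ⁻¹' K =
      (fun x : EuclideanSpace ℝ (Fin n) => (fun i => x i : Fin n → ℝ)) '' K := by
    ext x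
    constructor
    · intro hx
      exact ⟨WithLp.toLp 2 x, hx, rfl⟩
    · rintro ⟨y, hy, rfl⟩
      exact hy
  have key := h n ((fun x : Fin n → ℝ => (WithLp.toLp 2 x : EuclideanSpace ℝ (Fin n))) ⁻¹' K)
    ((fun x : Fin n → ℝ => (WithLp.toLp 2 x : EuclideanSpace ℝ (Fin n))) ⁻¹' T)
    (by rw [hKpre]; exact hK.image hcont)
    (fun x hx => by
      have := hKs _ hx
      exact this)
    ((j n).measurable hT)
    (fun x hx y hy a b ha hb hab => by
      have := hTc hx hy ha hb hab
      exact this)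
    (fun i x hx => hTu i _ hx)
  have e1 : Pol ((fun x : Fin n → ℝ => (WithLp.toLp 2 x : EuclideanSpace ℝ (Fin n))) ⁻¹' K) =
      (fun x : Fin n → ℝ => (WithLp.toLp 2 x : EuclideanSpace ℝ (Fin n))) ⁻¹'
        {y : EuclideanSpace ℝ (Fin n) | ∀ x ∈ K, inner ℝ x y ≤ (1 : ℝ)} := by
    ext y
    constructor
    · intro hy x hx
      have h1 := hy (fun i => x i) hx
      have h2 : inner ℝ x (WithLp.toLp 2 y : EuclideanSpace ℝ (Fin n)) = ∑ i, x i * y i := by
        rw [PiLp.inner_apply]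
        apply Finset.sum_congr rfl
        intro i _
        simp [mul_comm]
      show inner ℝ x (WithLp.toLp 2 y : EuclideanSpace ℝ (Fin n)) ≤ 1
      rw [h2]
      exact h1
    · intro hy x hx
      have h1 : inner ℝ (WithLp.toLp 2 x : EuclideanSpace ℝ (Fin n))
        (WithLp.toLp 2 y : EuclideanSpace ℝ (Fin n)) ≤ 1 := hy _ hx
      have h2 : inner ℝ (WithLp.toLp 2 x : EuclideanSpace ℝ (Fin n))
          (WithLp.toLp 2 y : EuclideanSpace ℝ (Fin n)) = ∑ i, x i * y i := by
        rw [PiLp.inner_apply]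
        apply Finset.sum_congr rfl
        intro i _
        simp [mul_comm]
      rw [h2] at h1
      exact h1
  have e2 : Bal n = (fun x : Fin n → ℝ => (WithLp.toLp 2 x : EuclideanSpace ℝ (Fin n))) ⁻¹'
      (Metric.closedBall (0 : EuclideanSpace ℝ (Fin n)) 1) := by
    ext x
    show ∑ i, x i ^ 2 ≤ 1 ↔ (WithLp.toLp 2 x : EuclideanSpace ℝ (Fin n)) ∈ Metric.closedBall (0 : EuclideanSpace ℝ (Fin n)) 1
    rw [mem_closedBall_zero_iff]
    have h1 : ‖(WithLp.toLp 2 x : EuclideanSpace ℝ (Fin n))‖ ^ 2 = ∑ i, x i ^ 2 := by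
      rw [EuclideanSpace.norm_sq_eq]
      apply Finset.sum_congr rfl
      intro i _
      simp
    rw [← h1]
    exact sq_le_one_iff₀ (norm_nonneg _)
  rw [e1, e2, ← preimage_inter, ← preimage_inter, ← preimage_inter, vol, vol, vol] at key
  exact key

end Pool.Agent.H100.SN10
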