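import Pool.Agent.H724.WE.SFStm

/-!
# Project WE, AB5: the number of status changes
-/

namespace Pool.Agent.H100.WE

open Finset H724.WE H724.WE.SF
open scoped Classical

variable {V ι : Type} (G : SF V ι)

/-- a set of vertices closed under darts contains the far side -/
theorem far_subset_of_closed {d : Dart ι} {T : Set V} (h0 : G.hd d ∈ T)
    (h : ∀ g : Dart ι, G.val g → ed g ≠ ed d → G.tl g ∈ T → G.hd g ∈ T) : G.far d ⊆ T := by
  intro x hx
  refine Conn.mem_of_closed h0 ?_ hx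
  intro e he
  constructor
  · intro h1
    exact h (e.1, e.2, true) he.1 he.2 h1
  · intro h1
    exact h (e.1, e.2, false) he.1 he.2 h1

/-- (1) a light dart whose shift is heavy -/
theorem up_case {d : Dart ι} (hd : G.val d) (hd' : G.val (sh d)) (hl : G.light d)
    (hl' : ¬ G.light (sh d)) : ∃ z ∈ G.far d, z ∉ G.Z ∧ G.up z ∈ G.Z := by
  by_contra hcon
  push Not at hcon
  have hz : ∀ z ∈ G.far d, z ∉ G.Z ∧ G.up z ∉ G.Z := fun z hz => ⟨hl z hz, hcon z hz (hl z hz)⟩
  apply hl'
  have hsub : G.far (sh d) ⊆ {w | ∃ z ∈ G.far d, w = G.up z} := by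
    refine far_subset_of_closed G ?_ ?_
    · refine ⟨G.hd d, G.hd_mem_far d, ?_⟩
      exact (G.hup d.2.2 d.1 d.2.1 hd.1 hd'.2 (hz _ (G.hd_mem_far d)).1).symm
    · rintro ⟨j, p, t⟩ hg hne ⟨z, hzf, hzt⟩
      obtain ⟨hz1, hz2⟩ := hz z hzf
      have htl : G.pt (!t) j p = G.up z := hzt
      have hp : p ≠ G.r := by
        rintro rfl
        rw [← htl] at hz2
        exact hz2 (G.hr _ _)
      have hp1 : G.r < p := lt_of_le_of_ne hg.1 (Ne.symm hp)
      obtain ⟨p', rfl⟩ : ∃ p', p = p' + 1 := ⟨p - 1, by omega⟩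
      have hr' : G.r ≤ p' := by omega
      have hl1 : p' + 1 < G.l := hg.2
      have hgv : G.val (j, p', t) := ⟨hr', by show p' < G.l; omega⟩
      have hnZ : G.pt (!t) j (p' + 1) ∉ G.Z := by rw [htl]; exact hz2
      have h1 := G.hdn (!t) j p' hr' hl1 hnZ
      have h2 : G.tl (j, p', t) = z := by
        show G.pt (!t) j p' = z
        rw [← h1, htl, G.dnup z hz1 hz2]
      have hne' : ed (j, p', t) ≠ ed d := by
        intro he
        apply hne
        have e1 : j = d.1 := congrArg Prod.fst he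
        have e2 : p' = d.2.1 := congrArg Prod.snd he
        show (j, p' + 1) = (d.1, d.2.1 + 1)
        rw [e1, e2]
      have h3 := G.far_closed hgv hne' (by rw [h2]; exact hzf)
      refine ⟨G.hd (j, p', t), h3, ?_⟩
      exact (G.hup t j p' hr' hl1 (hz _ h3).1).symm
  intro x hx
  obtain ⟨z, hzf, rfl⟩ := hsub hx
  exact (hz z hzf).2

/-- (2) a heavy dart whose shift is light -/
theorem dn_case {d : Dart ι} (hd : G.val d) (hd' : G.val (sh d)) (hl : G.light (sh d))
    (hl' : ¬ G.light d) : ∃ z ∈ G.far (sh d), z ∉ G.Z ∧ G.dn z ∈ G.Z := by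
  by_contra hcon
  push Not at hcon
  have hz : ∀ z ∈ G.far (sh d), z ∉ G.Z ∧ G.dn z ∉ G.Z :=
    fun z hz => ⟨hl z hz, hcon z hz (hl z hz)⟩
  apply hl'
  have hsub : G.far d ⊆ {w | ∃ z ∈ G.far (sh d), w = G.dn z} := by
    refine far_subset_of_closed G ?_ ?_
    · refine ⟨G.hd (sh d), G.hd_mem_far _, ?_⟩
      exact (G.hdn d.2.2 d.1 d.2.1 hd.1 hd'.2 (hz _ (G.hd_mem_far (sh d))).1).symm
    · rintro ⟨j, p, t⟩ hg hne ⟨z, hzf, hzt⟩
      obtain ⟨hz1, hz2⟩ := hz z hzf
      have htl : G.pt (!t) j p = G.dn z := hzt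
      have hp : p ≠ G.l - 1 := by
        rintro rfl
        rw [← htl] at hz2
        exact hz2 (G.hl _ _)
      have hg1 : G.r ≤ p := hg.1
      have hg2 : p < G.l := hg.2
      have hl1 : p + 1 < G.l := by omega
      have hgv : G.val (sh (j, p, t)) := ⟨by show G.r ≤ p + 1; omega, hl1⟩
      have hnZ : G.pt (!t) j p ∉ G.Z := by rw [htl]; exact hz2
      have h1 := G.hup (!t) j p hg1 hl1 hnZ
      have h2 : G.tl (sh (j, p, t)) = z := by
        show G.pt (!t) j (p + 1) = z
        rw [← h1, htl, G.updn z hz1 hz2]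
      have hne' : ed (sh (j, p, t)) ≠ ed (sh d) := by
        intro he
        apply hne
        have e1 : j = d.1 := congrArg Prod.fst he
        have e2 : p + 1 = d.2.1 + 1 := congrArg Prod.snd he
        have e3 : p = d.2.1 := by omega
        show (j, p) = (d.1, d.2.1)
        rw [e1, e3]
      have h3 := G.far_closed hgv hne' (by rw [h2]; exact hzf)
      refine ⟨G.hd (sh (j, p, t)), h3, ?_⟩
      exact (G.hdn t j p hg1 hl1 (hz _ h3).1).symm
  intro x hx
  obtain ⟨z, hzf, rfl⟩ := hsub hx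
  exact (hz z hzf).2

theorem sh_injective : Function.Injective (sh : Dart ι → Dart ι) := by
  rintro ⟨i, o, s⟩ ⟨j, p, t⟩ h
  have h1 : i = j := congrArg Prod.fst h
  have h2 : o + 1 = p + 1 := congrArg (fun x => x.2.1) h
  have h3 : s = t := congrArg (fun x => x.2.2) h
  have h4 : o = p := by omega
  rw [h1, h3, h4]

/-- **AB5.** -/
theorem status : H724.WE.S_status := by
  intro V ι _ _ G D I hD hU hDn
  set S1 : Finset (Dart ι) := G.SC.filter (fun d => G.light d) with hS1
  set S2 : Finset (Dart ι) := G.SC.filter (fun d => ¬ G.light d) with hS2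
  have h1 : S1.card ≤ I * D := by
    have hsub : S1 ⊆ G.bdU.biUnion
        (fun z => G.darts.filter (fun d => G.light d ∧ z ∈ G.far d)) := by
      intro d hd
      obtain ⟨hd1, hd2⟩ := mem_filter.1 hd
      obtain ⟨hd3, hd4, hd5⟩ := mem_filter.1 hd1
      have hl' : ¬ G.light (sh d) := fun h => hd5 ⟨fun _ => h, fun _ => hd2⟩
      obtain ⟨z, hz1, hz2, hz3⟩ := up_case G ((G.mem_darts d).1 hd3) hd4 hd2 hl'
      refine mem_biUnion.2 ⟨z, mem_filter.2 ⟨mem_univ _, hz2, hz3⟩, ?_⟩
      exact mem_filter.2 ⟨hd3, hd2, hz1⟩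
    calc S1.card ≤ _ := card_le_card hsub
      _ ≤ G.bdU.card * D := card_biUnion_le_card_mul _ _ _ fun z _ => hD z
      _ ≤ I * D := Nat.mul_le_mul_right _ hU
  have h2 : S2.card ≤ I * D := by
    have hsub : S2.image sh ⊆ G.bdD.biUnion
        (fun z => G.darts.filter (fun d => G.light d ∧ z ∈ G.far d)) := by
      intro d' hd'
      obtain ⟨d, hd, rfl⟩ := mem_image.1 hd'
      obtain ⟨hd1, hd2⟩ := mem_filter.1 hd
      obtain ⟨hd3, hd4, hd5⟩ := mem_filter.1 hd1
      have hl' : G.light (sh d) := by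
        by_contra h
        exact hd5 ⟨fun h1 => absurd h1 hd2, fun h1 => absurd h1 h⟩
      obtain ⟨z, hz1, hz2, hz3⟩ := dn_case G ((G.mem_darts d).1 hd3) hd4 hl' hd2
      refine mem_biUnion.2 ⟨z, mem_filter.2 ⟨mem_univ _, hz2, hz3⟩, ?_⟩
      exact mem_filter.2 ⟨(G.mem_darts _).2 hd4, hl', hz1⟩
    calc S2.card = (S2.image sh).card := (card_image_of_injective _ sh_injective).symm
      _ ≤ _ := card_le_card hsub
      _ ≤ G.bdD.card * D := card_biUnion_le_card_mul _ _ _ fun z _ => hD z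
      _ ≤ I * D := Nat.mul_le_mul_right _ hDn
  have h3 : G.SC.card = S1.card + S2.card := (card_filter_add_card_filter_not _).symm
  rw [h3]
  calc S1.card + S2.card ≤ I * D + I * D := add_le_add h1 h2
    _ = 2 * I * D := by ring

end Pool.Agent.H100.WE
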